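import Pool.Agent.U757.RT.Core

/-! # Finite index and discreteness -/

set_option autoImplicit false
set_option linter.unusedSectionVars false

namespace Pool.Agent.U757.RT

open Module Topology

section points

variable {K : IntermediateField ℚ ℂ} [FiniteDimensional ℚ K] [IsGalois ℚ K]
  {X : Type} [AddCommGroup X] [Module.Free ℤ X] [Module.Finite ℤ X]
  [DistribMulAction (K ≃ₐ[ℚ] K) X]

theorem continuous_val (a : X) : Continuous fun u : X → ℂˣ => (u a : ℂ) :=
  Units.continuous_val.comp (continuous_apply a)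

variable (K X) in
theorem real_closed : IsClosed (realPoints K X : Set (X → ℂˣ)) := by
  have h1 : (realPoints K X : Set (X → ℂˣ)) =
      (⋂ a : X, ⋂ b : X, {u : X → ℂˣ | u (a + b) = u a * u b}) ∩
        ⋂ a : X, {u : X → ℂˣ | (u (conjK K • a) : ℂ) = starRingEnd ℂ (u a : ℂ)} := by
    ext u
    simp only [Set.mem_inter_iff, Set.mem_iInter, Set.mem_ofPred_eq]
    exact Iff.rfl
  rw [h1]
  refine IsClosed.inter (isClosed_iInter fun a => isClosed_iInter fun b => ?_)
    (isClosed_iInter fun a => ?_)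
  · have h2 : Continuous fun u : X → ℂˣ => u a * u b :=
      (continuous_apply a).mul (continuous_apply b)
    exact isClosed_eq (continuous_apply _) h2
  · exact isClosed_eq (continuous_val _) (Complex.continuous_conj.comp (continuous_val _))

theorem closure_le {L : Subgroup (X → ℂˣ)} (hL : L ≤ rationalPoints K X) :
    L.topologicalClosure ≤ realPoints K X :=
  L.topologicalClosure_minimal (fun _ hu => rat_real (hL hu)) (real_closed K X)

variable {ι : Type} [Fintype ι] (b : Basis ι ℤ X)

theorem finite_index (H : Subgroup (X → ℂˣ))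
    (hH : ∀ v : Lie b (cL K X), ex b (v : ι → ℂ) ∈ H) : H.relIndex (realPoints K X) ≠ 0 := by
  classical
  let R := realPoints K X
  let T := {t : R // t ^ 2 = 1}
  have hT : Finite T := by
    let g : T → (ι → rootsOfUnity 2 ℂ) := fun t i =>
      ⟨((t.1 : R) : X → ℂˣ) (b i), by
        rw [mem_rootsOfUnity]
        have := congrArg (fun z : R => (z : X → ℂˣ) (b i)) t.2
        exact this⟩
    refine Finite.of_injective g ?_
    intro t t' h
    apply Subtype.ext
    apply Subtype.ext
    funext a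
    have h1 : ∀ t : T, ((t.1 : R) : X → ℂˣ) a =
        ∏ i, ((t.1 : R) : X → ℂˣ) (b i) ^ (b.repr a i) := by
      intro t
      conv_lhs => rw [← b.sum_repr a]
      rw [hom_sum t.1.2.1]
      exact Finset.prod_congr rfl fun i _ => hom_zsmul t.1.2.1 _ _
    rw [h1, h1]
    refine Finset.prod_congr rfl fun i _ => ?_
    have h2 := congrArg Subtype.val (congrFun h i)
    change ((t.1 : R) : X → ℂˣ) (b i) = ((t'.1 : R) : X → ℂˣ) (b i) at h2
    rw [h2]
  have hQ : Finite (R ⧸ H.subgroupOf R) := by
    refine Finite.of_surjective (fun t : T => (QuotientGroup.mk t.1 : R ⧸ H.subgroupOf R)) ?_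
    intro q
    obtain ⟨u, rfl⟩ := QuotientGroup.mk_surjective q
    obtain ⟨v, hv⟩ := square b u.2
    let v' : Lie b (cL K X) := (1 / 2 : ℝ) • v
    have hv' : ex b (v' : ι → ℂ) ^ 2 = (u : X → ℂˣ) ^ 2 := by
      rw [← hv]; exact half b v
    let z : R := ⟨ex b (v' : ι → ℂ), ex_mem_real b v'⟩
    refine ⟨⟨u * z⁻¹, ?_⟩, ?_⟩
    · rw [mul_pow, inv_pow]
      apply Subtype.ext
      change (u : X → ℂˣ) ^ 2 * (ex b (v' : ι → ℂ) ^ 2)⁻¹ = 1
      rw [hv', mul_inv_cancel]
    · rw [QuotientGroup.eq, Subgroup.mem_subgroupOf]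
      have h3 : (u * z⁻¹)⁻¹ * u = z := by group
      rw [h3]
      exact hH v'
  exact Subgroup.index_ne_zero_of_finite

/-- The torsion of a finitely generated commutative group is finite. -/
theorem tors_finite {G : Type} [CommGroup G] (L : Subgroup G) (hL : L.FG) :
    {g : G | g ∈ L ∧ ∃ N : ℕ, 0 < N ∧ g ^ N = 1}.Finite := by
  have h1 : Group.FG L := (Group.fg_iff_subgroup_fg L).mpr hL
  have h2 : AddGroup.FG (Additive L) := AddGroup.fg_iff_mul_fg.mpr h1
  have h3 : Module.Finite ℤ (Additive L) := Module.Finite.iff_addGroup_fg.mpr h2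
  let T := Submodule.torsion ℤ (Additive L)
  have h4 : Module.Finite ℤ T := inferInstance
  have h5 : Finite T := Module.finite_of_fg_torsion T Submodule.torsion_isTorsion
  have h6 : Set.Finite (T : Set (Additive L)) := h5
  refine (h6.image fun x : Additive L => ((Additive.toMul x : L) : G)).subset ?_
  rintro g ⟨hg, N, hN, h⟩
  refine ⟨Additive.ofMul ⟨g, hg⟩, ?_, rfl⟩
  refine (Submodule.mem_torsion_iff _).mpr ⟨⟨(N : ℤ), ?_⟩, ?_⟩
  · rw [mem_nonZeroDivisors_iff_ne_zero]
    exact_mod_cast hN.ne'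
  · change (N : ℤ) • (Additive.ofMul (⟨g, hg⟩ : L)) = 0
    rw [natCast_zsmul, ← ofMul_pow]
    have : (⟨g, hg⟩ : L) ^ N = 1 := Subtype.ext h
    rw [this]; rfl

end points

end Pool.Agent.U757.RT
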