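import Pool.Agent.U757.RT.Codim
import Pool.Agent.U757.RT.Index

/-! # Dimensions -/

set_option autoImplicit false
set_option linter.unusedSectionVars false

namespace Pool.Agent.U757.RT

open Module Topology Pool.Agent.W54.CL

section points

variable {K : IntermediateField ℚ ℂ} [FiniteDimensional ℚ K] [IsGalois ℚ K]
  {X : Type} [AddCommGroup X] [Module.Free ℤ X] [Module.Finite ℤ X]
  [DistribMulAction (K ≃ₐ[ℚ] K) X] {ι : Type} [Fintype ι] (b : Basis ι ℤ X)

theorem E_I (w : ι → ℂ) (a : X) : E b (fun i => Complex.I * w i) a = Complex.I * E b w a := by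
  rw [E_expand, E_expand, Finset.mul_sum]
  exact Finset.sum_congr rfl fun i _ => by ring

/-- the dimension of the Lie algebra is the rank of `X` -/
theorem finrank_Lie : finrank ℝ (Lie b (cL K X)) = finrank ℤ X := by
  let Φ : (Lie b (cL K X) × Lie b (cL K X)) →ₗ[ℝ] (ι → ℂ) :=
    { toFun := fun p i => (p.1 : ι → ℂ) i + Complex.I * (p.2 : ι → ℂ) i
      map_add' := by
        intro p q; funext i
        simp only [Prod.fst_add, Prod.snd_add, Submodule.coe_add, Pi.add_apply]
        ring
      map_smul' := by
        intro t p; funext i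
        simp only [Prod.smul_fst, Prod.smul_snd, Submodule.coe_smul, Pi.smul_apply,
          Complex.real_smul, RingHom.id_apply]
        ring }
  have hinj : Function.Injective Φ := by
    rw [← LinearMap.ker_eq_bot, Submodule.eq_bot_iff]
    rintro ⟨v, w⟩ h
    rw [LinearMap.mem_ker] at h
    have h1 : ∀ i, (v : ι → ℂ) i = -(Complex.I * (w : ι → ℂ) i) := fun i => by
      have := congrFun h i
      exact eq_neg_of_add_eq_zero_left this
    have h2 : ∀ a, E b (v : ι → ℂ) a = -(Complex.I * E b (w : ι → ℂ) a) := by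
      intro a
      rw [← E_I, E_expand, E_expand, ← Finset.sum_neg_distrib]
      exact Finset.sum_congr rfl fun i _ => by rw [h1 i]; ring
    have h3 : ∀ a, E b (w : ι → ℂ) a = 0 := by
      intro a
      have h4 := v.2 a
      rw [h2, h2, w.2 a, map_neg, map_mul, Complex.conj_I] at h4
      have h5 : 2 * Complex.I * starRingEnd ℂ (E b (w : ι → ℂ) a) = 0 := by
        linear_combination -h4
      have h6 : (2 * Complex.I : ℂ) ≠ 0 := by simp [Complex.I_ne_zero]
      have h7 := (mul_eq_zero.mp h5).resolve_left h6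
      exact (map_eq_zero _).mp h7
    have hw : w = 0 := by
      apply Subtype.ext
      funext i
      have := h3 (b i)
      rwa [E_basis] at this
    have hv : v = 0 := by
      apply Subtype.ext
      funext i
      rw [h1 i, hw]
      simp
    rw [hv, hw]; rfl
  have hsurj : Function.Surjective Φ := by
    intro w0
    let W : X →ₗ[ℤ] ℂ := E b w0
    have e1 : (fun i => (1 / 2 : ℝ) • sym (cL K X) W (b i)) ∈ Lie b (cL K X) :=
      (Lie b (cL K X)).smul_mem (1 / 2 : ℝ) (sym_mem b _ (cL_cL K X) W)
    have e2 : (fun i => (1 / 2 : ℝ) • sym (cL K X) (E b (fun i => -Complex.I * w0 i)) (b i)) ∈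
        Lie b (cL K X) :=
      (Lie b (cL K X)).smul_mem (1 / 2 : ℝ) (sym_mem b _ (cL_cL K X) _)
    refine ⟨(⟨_, e1⟩, ⟨_, e2⟩), ?_⟩
    funext i
    change (1 / 2 : ℝ) • sym (cL K X) W (b i) + Complex.I *
      ((1 / 2 : ℝ) • sym (cL K X) (E b (fun i => -Complex.I * w0 i)) (b i)) = w0 i
    have e3 : ∀ a, E b (fun i => -Complex.I * w0 i) a = -Complex.I * E b w0 a := by
      intro a
      rw [E_expand, E_expand, Finset.mul_sum]
      exact Finset.sum_congr rfl fun i _ => by ring
    have e4 : E b w0 (b i) = w0 i := E_basis b w0 i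
    rw [sym_apply, sym_apply, e3, e3, map_mul, map_neg, Complex.conj_I, e4, Complex.real_smul,
      Complex.real_smul]
    change ((1 / 2 : ℝ) : ℂ) * (w0 i + starRingEnd ℂ (E b w0 (cL K X (b i)))) + _ = _
    push_cast
    linear_combination (-(1 / 2 : ℂ) * w0 i +
      (1 / 2 : ℂ) * starRingEnd ℂ (E b w0 (cL K X (b i)))) * Complex.I_mul_I
  have h1 := (LinearEquiv.ofBijective Φ ⟨hinj, hsurj⟩).finrank_eq
  rw [Module.finrank_prod] at h1
  have h2 : finrank ℝ (ι → ℂ) = Fintype.card ι * 2 := by
    rw [Module.finrank_pi_fintype]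
    simp [Complex.finrank_real_complex]
  have h3 := Module.finrank_eq_card_basis b
  omega

theorem eq_zero_of_exp {c : ℂ} (h : ∀ t : ℝ, Complex.exp (t * c) = 1) : c = 0 := by
  by_contra hc
  have hn : 0 < ‖c‖ := norm_pos_iff.mpr hc
  obtain ⟨n, hn'⟩ := Complex.exp_eq_one_iff.mp (h (1 / ‖c‖))
  have h1 : ‖(((1 / ‖c‖ : ℝ) : ℂ)) * c‖ = 1 := by
    rw [norm_mul, Complex.norm_real, Real.norm_eq_abs, abs_of_pos (by positivity)]
    field_simp
  rw [hn'] at h1
  rw [norm_mul, norm_mul, norm_mul, Complex.norm_I, Complex.norm_real, Complex.norm_ofNat,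
    mul_one, Real.norm_eq_abs, abs_of_pos Real.pi_pos, Complex.norm_intCast] at h1
  rcases eq_or_ne n 0 with h0 | h0
  · rw [h0] at h1
    simp at h1
  · have h2 : (1 : ℝ) ≤ |(n : ℝ)| := by exact_mod_cast Int.one_le_abs h0
    nlinarith [Real.pi_gt_three]

theorem finrank_lieAlgebra {L : Subgroup (X → ℂˣ)} (hL : L ≤ rationalPoints K X) :
    finrank ℝ (lieAlgebra L.topologicalClosure) =
      finrank ℝ (maxSub (preim (K := K) b L.topologicalClosure)) := by
  let F : maxSub (preim (K := K) b L.topologicalClosure) →ₗ[ℝ]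
      lieAlgebra L.topologicalClosure :=
    { toFun := fun v => ⟨E b ((v : Lie b (cL K X)) : ι → ℂ), fun t => by
        have h1 := v.2 t
        rw [mem_preim] at h1
        have h2 : expPoint (t • E b ((v : Lie b (cL K X)) : ι → ℂ)) =
            ex b ((t • (v : Lie b (cL K X)) : Lie b (cL K X)) : ι → ℂ) := by
          funext a
          apply Units.ext
          rw [ex_val, Submodule.coe_smul, map_smul]
          rfl
        rw [h2]
        exact h1⟩
      map_add' := by
        intro v w
        apply Subtype.ext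
        change E b (((v : Lie b (cL K X)) : ι → ℂ) + ((w : Lie b (cL K X)) : ι → ℂ)) = _
        rw [map_add]; rfl
      map_smul' := by
        intro t v
        apply Subtype.ext
        change E b (t • ((v : Lie b (cL K X)) : ι → ℂ)) = _
        rw [map_smul]; rfl }
  have hinj : Function.Injective F := by
    intro v w h
    have h1 : E b ((v : Lie b (cL K X)) : ι → ℂ) = E b ((w : Lie b (cL K X)) : ι → ℂ) :=
      congrArg Subtype.val h
    apply Subtype.ext
    apply Subtype.ext
    funext i
    rw [← E_basis b ((v : Lie b (cL K X)) : ι → ℂ) i, h1, E_basis]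
  have hsurj : Function.Surjective F := by
    rintro ⟨v, hv⟩
    have hE : E b (fun i => v (b i)) = v := E_self b v
    have hmem : (fun i => v (b i)) ∈ Lie b (cL K X) := by
      intro a
      rw [hE]
      have h1 : ∀ t : ℝ, Complex.exp (t * (v (cL K X a) - starRingEnd ℂ (v a))) = 1 := by
        intro t
        have h2 := (closure_le hL (hv t)).2 a
        change Complex.exp (t • v (conjK K • a)) = starRingEnd ℂ (Complex.exp (t • v a)) at h2
        rw [← Complex.exp_conj, Complex.real_smul, Complex.real_smul, map_mul,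
          Complex.conj_ofReal] at h2
        rw [mul_sub, Complex.exp_sub, cL_apply, h2]
        exact div_self (Complex.exp_ne_zero _)
      exact sub_eq_zero.mp (eq_zero_of_exp h1)
    refine ⟨⟨⟨_, hmem⟩, ?_⟩, ?_⟩
    · intro t
      rw [mem_preim]
      have h2 : ex b ((t • (⟨_, hmem⟩ : Lie b (cL K X)) : Lie b (cL K X)) : ι → ℂ) =
          expPoint (t • v) := by
        funext a
        apply Units.ext
        rw [ex_val, Submodule.coe_smul, map_smul, hE]
        rfl
      rw [h2]
      exact hv t
    · apply Subtype.ext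
      exact hE
  exact ((LinearEquiv.ofBijective F ⟨hinj, hsurj⟩).finrank_eq).symm

theorem codim_final {L : Subgroup (X → ℂˣ)} (hA : ZariskiDenseElements L)
    (hL : L ≤ rationalPoints K X) : ∃ m : ℕ, ClosureOfCodimension X L m ∧
      ∀ l : ℕ, RankAtLeast L l → m * l ≤ m * realRank K X + realRank K X ^ 2 := by
  let b := Module.Free.chooseBasis ℤ X
  refine ⟨finrank ℝ (Lie b (cL K X)) -
      finrank ℝ (maxSub (preim (K := K) b L.topologicalClosure)), ?_, fun l hl =>
      codim_bound b hA hL hl⟩
  unfold ClosureOfCodimension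
  rw [finrank_lieAlgebra b hL]
  have h1 := finrank_Lie (K := K) b
  have h2 := Submodule.finrank_le (maxSub (preim (K := K) b L.topologicalClosure))
  omega

end points

end Pool.Agent.U757.RT
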