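import Pool.Agent.U757.RT.Gen

/-! # Linear algebra -/

set_option autoImplicit false

namespace Pool.Agent.U757.RT

open Module Finset

/-- rational vectors independent over `ℚ` are independent over `ℝ` -/
theorem indep_real {κ ι : Type} [Fintype κ] [Fintype ι] (p : κ → ι → ℤ)
    (hp : LinearIndependent ℚ (fun t i => (p t i : ℚ))) (τ : κ → ℝ)
    (h : ∀ i, ∑ t, τ t * p t i = 0) : τ = 0 := by
  classical
  obtain ⟨g, hg⟩ := LinearMap.exists_leftInverse_of_injective
    (Fintype.linearCombination ℚ (fun t i => (p t i : ℚ))) (by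
      rw [LinearMap.ker_eq_bot]
      exact linearIndependent_iff_injective_fintypeLinearCombination.mp hp)
  have hg1 : ∀ t t', g (fun i => (p t i : ℚ)) t' = if t = t' then 1 else 0 := by
    intro t t'
    have h1 := LinearMap.congr_fun hg (Pi.single t 1)
    rw [LinearMap.comp_apply, Fintype.linearCombination_apply_single, one_smul,
      LinearMap.id_apply] at h1
    rw [h1, Pi.single_apply]
    by_cases h2 : t = t'
    · rw [if_pos h2, if_pos h2.symm]
    · rw [if_neg h2, if_neg (Ne.symm h2)]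
  have hg2 : ∀ (v : ι → ℚ) t', g v t' = ∑ i, v i * g (Pi.single i 1) t' := by
    intro v t'
    have h1 : v = ∑ i, v i • (Pi.single i (1 : ℚ) : ι → ℚ) := by
      funext j
      rw [Finset.sum_apply, Finset.sum_eq_single j]
      · simp
      · intro i _ hij
        simp [Pi.single_eq_of_ne (Ne.symm hij)]
      · intro h; exact absurd (Finset.mem_univ _) h
    conv_lhs => rw [h1]
    rw [map_sum, Finset.sum_apply]
    refine Finset.sum_congr rfl fun i _ => ?_
    rw [map_smul, Pi.smul_apply, smul_eq_mul]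
  funext t'
  have h3 : ∑ i, ((g (Pi.single i 1) t' : ℚ) : ℝ) * ∑ t, τ t * p t i = 0 :=
    Finset.sum_eq_zero fun i _ => by rw [h i, mul_zero]
  have h4 : ∑ i, ((g (Pi.single i 1) t' : ℚ) : ℝ) * ∑ t, τ t * p t i =
      ∑ t, τ t * ((g (fun i => (p t i : ℚ)) t' : ℚ) : ℝ) := by
    simp only [Finset.mul_sum]
    rw [Finset.sum_comm]
    refine Finset.sum_congr rfl fun t _ => ?_
    rw [hg2 (fun i => (p t i : ℚ)) t']
    push_cast
    rw [Finset.mul_sum]
    exact Finset.sum_congr rfl fun i _ => by ring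
  rw [h4] at h3
  simp only [hg1] at h3
  rw [Finset.sum_eq_single t'] at h3
  · simpa using h3
  · intro t _ ht
    rw [if_neg ht]; simp
  · intro h; exact absurd (Finset.mem_univ _) h

/-- integral multiples of a family of vectors -/
theorem clear_family {κ ι : Type} [Fintype ι] (v : κ → ι → ℚ) (hv : LinearIndependent ℚ v) :
    ∃ (D : κ → ℚ) (p : κ → ι → ℤ), (∀ t, D t ≠ 0) ∧ (∀ t i, (p t i : ℚ) = D t * v t i) ∧
      LinearIndependent ℚ (fun t i => (p t i : ℚ)) := by
  choose D hD p hp using fun t => clear_den (v t)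
  refine ⟨D, p, hD, hp, ?_⟩
  have h1 : (fun t i => (p t i : ℚ)) = fun t => (Units.mk0 (D t) (hD t)) • v t := by
    funext t i
    rw [hp t i]; rfl
  rw [h1]
  exact hv.units_smul fun t => Units.mk0 (D t) (hD t)

/-- splitting of the relations -/
theorem split {ι' ι : Type} [Fintype ι'] [Fintype ι] (M : ι' → ι → ℤ) :
    ∃ (k1 k2 : ℕ) (p1 : Fin k1 → ι' → ℤ) (p2 : Fin k2 → ι' → ℤ),
      k1 + k2 = Fintype.card ι' ∧ (∀ t j, ∑ i, p2 t i * M i j = 0) ∧
      LinearIndependent ℚ (fun t i => (p2 t i : ℚ)) ∧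
      ∀ z : Fin k1 → ℤ, (∀ j, ∑ q, z q * ∑ i, p1 q i * M i j = 0) → z = 0 := by
  classical
  let Φ : (ι' → ℚ) →ₗ[ℚ] (ι → ℚ) :=
    { toFun := fun p j => ∑ i, p i * M i j
      map_add' := by
        intro p q; funext j
        simp only [Pi.add_apply, add_mul, Finset.sum_add_distrib]
      map_smul' := by
        intro c p; funext j
        simp only [Pi.smul_apply, smul_eq_mul, RingHom.id_apply, Finset.mul_sum, mul_assoc] }
  have hΦ : ∀ p j, Φ p j = ∑ i, p i * M i j := fun p j => rfl
  obtain ⟨Q, hQ⟩ := Submodule.exists_isCompl (LinearMap.ker Φ)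
  let B2 := Module.finBasis ℚ (LinearMap.ker Φ)
  let B1 := Module.finBasis ℚ Q
  obtain ⟨D2, p2, hD2, hp2, hi2⟩ := clear_family (fun t i => (B2 t : ι' → ℚ) i)
    (B2.linearIndependent.map' (LinearMap.ker Φ).subtype (Submodule.ker_subtype _))
  obtain ⟨D1, p1, hD1, hp1, hi1⟩ := clear_family (fun t i => (B1 t : ι' → ℚ) i)
    (B1.linearIndependent.map' Q.subtype (Submodule.ker_subtype _))
  refine ⟨_, _, p1, p2, ?_, ?_, hi2, ?_⟩
  · have h1 := Submodule.finrank_add_eq_of_isCompl hQ
    rw [Module.finrank_fintype_fun_eq_card] at h1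
    omega
  · intro t j
    have h1 : Φ (fun i => (p2 t i : ℚ)) j = 0 := by
      have h2 : (fun i => (p2 t i : ℚ)) = D2 t • (B2 t : ι' → ℚ) := by
        funext i; rw [hp2 t i]; rfl
      rw [h2, map_smul, LinearMap.mem_ker.mp (B2 t).2, smul_zero]; rfl
    rw [hΦ] at h1
    exact_mod_cast h1
  · intro z hz
    have h1 : Φ (∑ q, (z q : ℚ) • fun i => (p1 q i : ℚ)) = 0 := by
      funext j
      have h0 : ((∑ q, z q * ∑ i, p1 q i * M i j : ℤ) : ℚ) = 0 := by rw [hz j]; rfl
      rw [map_sum, Finset.sum_apply, Pi.zero_apply, ← h0]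
      push_cast
      refine Finset.sum_congr rfl fun q _ => ?_
      rw [map_smul, Pi.smul_apply, hΦ, smul_eq_mul]
    have h2 : (∑ q, (z q : ℚ) • fun i => (p1 q i : ℚ)) ∈ Q := by
      refine Submodule.sum_mem _ fun q _ => Submodule.smul_mem _ _ ?_
      have h3 : (fun i => (p1 q i : ℚ)) = D1 q • (B1 q : ι' → ℚ) := by
        funext i; rw [hp1 q i]; rfl
      rw [h3]
      exact Submodule.smul_mem _ _ (B1 q).2
    have h4 : (∑ q, (z q : ℚ) • fun i => (p1 q i : ℚ)) ∈ LinearMap.ker Φ ⊓ Q := ⟨h1, h2⟩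
    rw [hQ.inf_eq_bot, Submodule.mem_bot] at h4
    funext q
    have := Fintype.linearIndependent_iff.mp hi1 (fun q => (z q : ℚ)) h4 q
    exact_mod_cast this

/-- integral points in the kernel of integral linear forms -/
theorem sublattice {κ2 : Type} [Fintype κ2] {l : ℕ} (N : κ2 → Fin l → ℤ) :
    ∃ (l' : ℕ) (c : Fin l' → Fin l → ℤ), l ≤ l' + Fintype.card κ2 ∧
      (∀ q t, ∑ j, c q j * N t j = 0) ∧
      ∀ z : Fin l' → ℤ, (∀ j, ∑ q, z q * c q j = 0) → z = 0 := by
  classical
  let Φ : (Fin l → ℚ) →ₗ[ℚ] (κ2 → ℚ) :=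
    { toFun := fun p t => ∑ j, p j * N t j
      map_add' := by
        intro p q; funext j
        simp only [Pi.add_apply, add_mul, Finset.sum_add_distrib]
      map_smul' := by
        intro c p; funext j
        simp only [Pi.smul_apply, smul_eq_mul, RingHom.id_apply, Finset.mul_sum, mul_assoc] }
  have hΦ : ∀ p t, Φ p t = ∑ j, p j * N t j := fun p t => rfl
  let B := Module.finBasis ℚ (LinearMap.ker Φ)
  obtain ⟨D, c, hD, hc, hi⟩ := clear_family (fun t i => (B t : Fin l → ℚ) i)
    (B.linearIndependent.map' (LinearMap.ker Φ).subtype (Submodule.ker_subtype _))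
  refine ⟨_, c, ?_, ?_, ?_⟩
  · have h1 := LinearMap.finrank_range_add_finrank_ker Φ
    have h2 : finrank ℚ (LinearMap.range Φ) ≤ Fintype.card κ2 := by
      have := Submodule.finrank_le (LinearMap.range Φ)
      rwa [Module.finrank_fintype_fun_eq_card] at this
    rw [Module.finrank_fintype_fun_eq_card, Fintype.card_fin] at h1
    omega
  · intro q t
    have h1 : Φ (fun i => (c q i : ℚ)) t = 0 := by
      have h2 : (fun i => (c q i : ℚ)) = D q • (B q : Fin l → ℚ) := by
        funext i; rw [hc q i]; rfl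
      rw [h2, map_smul, LinearMap.mem_ker.mp (B q).2, smul_zero]; rfl
    rw [hΦ] at h1
    exact_mod_cast h1
  · intro z hz
    funext q
    have h1 : ∑ q, (z q : ℚ) • (fun i => (c q i : ℚ)) = 0 := by
      funext j
      rw [Finset.sum_apply]
      simp only [Pi.smul_apply, smul_eq_mul, Pi.zero_apply]
      exact_mod_cast hz j
    have := Fintype.linearIndependent_iff.mp hi (fun q => (z q : ℚ)) h1 q
    exact_mod_cast this

/-- vectors in the common kernel of independent real linear forms -/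
theorem factor {κ2 P : Type} [Fintype κ2] {r : ℕ} (s : κ2 → Fin r → ℝ)
    (hs : LinearIndependent ℝ s) (lam : P → Fin r → ℝ)
    (h : ∀ q t, ∑ k, s t k * lam q k = 0) :
    ∃ (ρ : ℕ) (β : Fin ρ → Fin r → ℝ) (z : P → Fin ρ → ℝ), ρ + Fintype.card κ2 = r ∧
      ∀ q k, lam q k = ∑ i, z q i * β i k := by
  classical
  let M : Matrix κ2 (Fin r) ℝ := Matrix.of s
  have hM : ∀ v t, M.mulVecLin v t = ∑ k, s t k * v k := fun v t => rfl
  let B := Module.finBasis ℝ (LinearMap.ker M.mulVecLin)
  have hmem : ∀ q, lam q ∈ LinearMap.ker M.mulVecLin := by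
    intro q
    rw [LinearMap.mem_ker]
    funext t
    rw [hM]; exact h q t
  refine ⟨_, fun i => (B i : Fin r → ℝ), fun q i => B.repr ⟨lam q, hmem q⟩ i, ?_, ?_⟩
  · have h1 := LinearMap.finrank_range_add_finrank_ker M.mulVecLin
    have h2 : finrank ℝ (LinearMap.range M.mulVecLin) = Fintype.card κ2 := by
      have : M.rank = Fintype.card κ2 := LinearIndependent.rank_matrix (M := M) hs
      exact this
    rw [Module.finrank_fintype_fun_eq_card, Fintype.card_fin] at h1
    omega
  · intro q k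
    have h1 := congrArg (fun w : LinearMap.ker M.mulVecLin => (w : Fin r → ℝ) k)
      (B.sum_repr ⟨lam q, hmem q⟩)
    simp only [Submodule.coe_sum, Submodule.coe_smul, Finset.sum_apply, Pi.smul_apply,
      smul_eq_mul] at h1
    exact h1.symm

/-- the rank bound for arbitrary index types -/
theorem rank_bound' {R P : Type} [Fintype R] [Fintype P] {ρ : ℕ} (u : R → P → ℂ)
    (x : Fin ρ → R → ℂ) (y : Fin ρ → P → ℂ) (hu : ∀ j p, IsAlgebraic ℚ (Complex.exp (u j p)))
    (huv : ∀ j p, u j p = ∑ q, x q j * y q p)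
    (hgen : ∀ (m : R → ℤ) (s : P → ℤ), m ≠ 0 →
      (∃ n : ℤ, ∑ j, ∑ p, (m j : ℂ) * (s p : ℂ) * u j p = n * (2 * Real.pi * Complex.I)) → s = 0)
    (hP : 0 < Fintype.card P) :
    Fintype.card R * Fintype.card P ≤ ρ * (Fintype.card P + Fintype.card R) := by
  classical
  let eR := Fintype.equivFin R
  let eP := Fintype.equivFin P
  refine rank_bound (fun j p => u (eR.symm j) (eP.symm p)) (fun q j => x q (eR.symm j))
    (fun q p => y q (eP.symm p)) (fun j p => hu _ _) (fun j p => huv _ _) ?_ hP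
  intro m s hm hn
  have h1 := hgen (fun j => m (eR j)) (fun p => s (eP p)) ?_ ?_
  · funext p
    have := congrFun h1 (eP.symm p)
    simpa using this
  · intro h
    apply hm
    funext j
    have := congrFun h (eR.symm j)
    simpa using this
  · obtain ⟨n, hn⟩ := hn
    refine ⟨n, ?_⟩
    rw [← hn, ← Equiv.sum_comp eR]
    refine Finset.sum_congr rfl fun j _ => ?_
    rw [← Equiv.sum_comp eP]
    refine Finset.sum_congr rfl fun p _ => ?_
    simp

end Pool.Agent.U757.RT
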