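import Pool.Agent.U757.RT.Disc
import Pool.Agent.U757.RT.LA

/-! # Discreteness of groups of small rank -/

set_option autoImplicit false
set_option linter.unusedSectionVars false

namespace Pool.Agent.U757.RT

open Module Topology

theorem exists_max_rank {G : Type} [CommGroup G] {L : Subgroup G} {l : ℕ}
    (h : ¬ RankAtLeast L (l + 1)) : ∃ k ≤ l, RankAtLeast L k ∧ ¬ RankAtLeast L (k + 1) := by
  classical
  have h1 : ∃ k, ¬ RankAtLeast L (k + 1) := ⟨l, h⟩
  refine ⟨Nat.find h1, Nat.find_le h, ?_, Nat.find_spec h1⟩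
  rcases Nat.eq_zero_or_pos (Nat.find h1) with h0 | h0
  · rw [h0]
    exact ⟨fun i => i.elim0, fun i => i.elim0, fun e _ => by funext i; exact i.elim0⟩
  · have h2 := Nat.find_min h1 (m := Nat.find h1 - 1) (by omega)
    rw [not_not] at h2
    have h3 : Nat.find h1 - 1 + 1 = Nat.find h1 := by omega
    rwa [h3] at h2

section points

variable {K : IntermediateField ℚ ℂ} [FiniteDimensional ℚ K] [IsGalois ℚ K]
  {X : Type} [AddCommGroup X] [Module.Free ℤ X] [Module.Finite ℤ X]
  [DistribMulAction (K ≃ₐ[ℚ] K) X]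

/-- the logarithmic vectors of independent points are independent over `ℝ` -/
theorem log_indep {L : Subgroup (X → ℂˣ)} (hA : ZariskiDenseElements L)
    (hL : L ≤ rationalPoints K X) {k : ℕ} (y : Fin k → X → ℂˣ) (hyL : ∀ i, y i ∈ L)
    (hy : ∀ e : Fin k → ℤ, ∏ i, y i ^ e i = 1 → e = 0) (hk : k * (k - 1) < realRank K X)
    (e : Basis (Fin (realRank K X)) ℤ (realCharacters K X)) :
    LinearIndependent ℝ fun j i => Real.log ‖(y j (e i : X) : ℂ)‖ := by
  classical
  let b := Module.Free.chooseBasis ℤ X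
  choose V hV using fun j => square b (rat_real (hL (hyL j)))
  have hVL : ∀ j, ex b (V j : _ → ℂ) ∈ L := fun j => by
    rw [hV j]; exact pow_mem (hyL j) 2
  have heR : ∀ i, cL K X (e i : X) = (e i : X) := fun i => (e i).2
  let lam : Fin (realRank K X) → Fin k → ℝ := fun i j => (E b (V j : _ → ℂ) (e i : X)).re
  have hlam : ∀ i j, E b (V j : _ → ℂ) (e i : X) = (lam i j : ℂ) :=
    fun i j => Lie_real b (V j).2 (heR i)
  have hlog : ∀ i j, lam i j = 2 * Real.log ‖(y j (e i : X) : ℂ)‖ := by
    intro i j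
    have h1 : (ex b (V j : _ → ℂ) (e i : X) : ℂ) = (y j (e i : X) : ℂ) ^ 2 := by
      rw [hV j, Pi.pow_apply, Units.val_pow_eq_pow_val]
    rw [ex_val, hlam, ← Complex.ofReal_exp] at h1
    have h2 := congrArg (fun z : ℂ => Real.log ‖z‖) h1
    simp only [Complex.norm_real, Real.norm_eq_abs, abs_of_pos (Real.exp_pos _), Real.log_exp,
      norm_pow, Real.log_pow] at h2
    exact_mod_cast h2
  rw [Fintype.linearIndependent_iff]
  intro τ hτ
  by_contra hne
  push Not at hne
  obtain ⟨j0, hj0⟩ := hne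
  have hkpos : 0 < k := lt_of_le_of_lt (Nat.zero_le _) j0.2
  have hrel : ∀ i (_ : Unit), ∑ j, τ j * lam i j = 0 := by
    intro i _
    have h1 := congrFun hτ i
    rw [Finset.sum_apply] at h1
    simp only [Pi.smul_apply, smul_eq_mul, Pi.zero_apply] at h1
    have h2 : ∑ j, τ j * lam i j = 2 * ∑ j, τ j * Real.log ‖(y j (e i : X) : ℂ)‖ := by
      rw [Finset.mul_sum]
      exact Finset.sum_congr rfl fun j _ => by rw [hlog]; ring
    rw [h2, h1, mul_zero]
  obtain ⟨ρ, β, z, hρ, hβ⟩ := factor (fun _ : Unit => τ) (by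
    rw [Fintype.linearIndependent_iff]
    intro c hc u
    have h1 := congrFun hc j0
    simp only [Finset.univ_unique, Finset.sum_singleton, Pi.smul_apply, smul_eq_mul,
      Pi.zero_apply] at h1
    exact (mul_eq_zero.mp h1).resolve_right hj0) lam hrel
  rw [Fintype.card_unit] at hρ
  have hmain : Fintype.card (Fin (realRank K X)) * Fintype.card (Fin k) ≤
      ρ * (Fintype.card (Fin k) + Fintype.card (Fin (realRank K X))) := by
    refine rank_bound' (fun i j => ((lam i j : ℝ) : ℂ)) (fun a i => ((z i a : ℝ) : ℂ))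
      (fun a j => ((β a j : ℝ) : ℂ)) ?_ ?_ ?_ (by rw [Fintype.card_fin]; exact hkpos)
    · intro i j
      rw [← hlam, ← ex_val]
      exact rat_alg (hL (hVL j)) _
    · intro i j
      rw [hβ i j]
      push_cast
      rfl
    · intro m s hm hex
      obtain ⟨N, hN⟩ := hex
      have h1 : ((∑ i, ∑ j, (m i : ℝ) * (s j : ℝ) * lam i j : ℝ) : ℂ) =
          ((2 * Real.pi * N : ℝ) : ℂ) * Complex.I := by
        push_cast
        rw [hN]; ring
      have h2 := congrArg Complex.re h1
      simp only [Complex.ofReal_re, Complex.mul_re, Complex.I_re, Complex.ofReal_im,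
        Complex.I_im, mul_zero, zero_mul, sub_zero] at h2
      obtain ⟨M, hM, hMt⟩ := hA (ex b (∑ j, s j • (V j : _ → ℂ)))
        (by rw [ex_sum]; exact prod_mem fun j _ => zpow_mem (hVL j) _)
        ⟨∑ i, m i • (e i : X), by
          intro h
          apply hm
          have h3 : ∑ i, m i • e i = 0 := by
            apply Subtype.ext
            simp only [Submodule.coe_sum, Submodule.coe_smul, Submodule.coe_zero]
            exact h
          funext i
          exact Fintype.linearIndependent_iff.mp e.linearIndependent m h3 i, by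
          apply Units.ext
          rw [ex_val]
          have h4 : E b (∑ j, s j • (V j : _ → ℂ)) (∑ i, m i • (e i : X)) =
              ((∑ i, ∑ j, (m i : ℝ) * (s j : ℝ) * lam i j : ℝ) : ℂ) := by
            rw [map_sum, Complex.ofReal_sum]
            refine Finset.sum_congr rfl fun i _ => ?_
            rw [map_zsmul, zsmul_eq_mul, map_sum, LinearMap.sum_apply, Complex.ofReal_sum,
              Finset.mul_sum]
            refine Finset.sum_congr rfl fun j _ => ?_
            rw [map_zsmul, LinearMap.smul_apply, hlam, zsmul_eq_mul]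
            push_cast
            ring
          rw [h4, h2]
          simp⟩
      have h5 := hy (fun j => 2 * s j * M) (by
        rw [← hMt, ex_sum, ← Finset.prod_pow]
        refine Finset.prod_congr rfl fun j _ => ?_
        rw [hV j, ← zpow_natCast, ← zpow_natCast, ← zpow_mul, ← zpow_mul]
        congr 1
        push_cast
        ring)
      funext j
      have h6 := congrFun h5 j
      simp only [Pi.zero_apply] at h6
      have h7 : (M : ℤ) ≠ 0 := by exact_mod_cast hM.ne'
      rcases mul_eq_zero.mp h6 with h8 | h8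
      · rcases mul_eq_zero.mp h8 with h9 | h9
        · norm_num at h9
        · exact h9
      · exact absurd h8 h7
  rw [Fintype.card_fin, Fintype.card_fin] at hmain
  obtain ⟨k', rfl⟩ : ∃ k', k = k' + 1 := ⟨k - 1, by omega⟩
  have hρ' : ρ = k' := by omega
  rw [hρ', mul_add] at hmain
  rw [Nat.add_sub_cancel] at hk
  nlinarith

/-- **Discreteness of groups of small rank.** -/
theorem discrete_small {L : Subgroup (X → ℂˣ)} (hA : ZariskiDenseElements L)
    (hL : L ≤ rationalPoints K X) (hfg : L.FG) {l : ℕ} (hl : l * (l - 1) < realRank K X ∨ l = 0)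
    (hrank : ¬ RankAtLeast L (l + 1)) : DiscreteTopology L := by
  classical
  obtain ⟨k, hkl, ⟨y, hyL, hy⟩, hk1⟩ := exists_max_rank hrank
  have hfin := tors_finite L hfg
  -- powers
  have hrel : ∀ g ∈ L, ∃ (a : ℤ) (c : Fin k → ℤ), a ≠ 0 ∧ g ^ a = ∏ j, y j ^ c j := by
    intro g hg
    by_contra hcon
    push Not at hcon
    apply hk1
    refine ⟨Fin.cons g y, ?_, fun e he => ?_⟩
    · intro i
      refine Fin.cases ?_ (fun j => ?_) i
      · exact hg
      · exact hyL j
    · rw [Fin.prod_univ_succ] at he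
      simp only [Fin.cons_zero, Fin.cons_succ] at he
      have h0 : e 0 = 0 := by
        by_contra h1
        refine hcon (e 0) (fun j => - e j.succ) h1 ?_
        simp only [zpow_neg]
        rw [Finset.prod_inv_distrib]
        exact eq_inv_of_mul_eq_one_left he
      rw [h0, zpow_zero, one_mul] at he
      have h2 := hy _ he
      funext i
      refine Fin.cases ?_ (fun j => ?_) i
      · exact h0
      · exact congrFun h2 j
  rcases Nat.eq_zero_or_pos k with hk0 | hkpos
  · -- torsion
    subst hk0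
    have h1 : (L : Set (X → ℂˣ)).Finite := hfin.subset fun g hg => ⟨hg, by
      obtain ⟨a, c, ha, h⟩ := hrel g hg
      rw [Finset.univ_eq_empty, Finset.prod_empty] at h
      by_contra hcon
      push Not at hcon
      exact ha (zpow_tors hcon h)⟩
    have h2 : Finite L := h1
    infer_instance
  have hkk : k * (k - 1) < realRank K X := by
    rcases hl with h | h
    · exact lt_of_le_of_lt (Nat.mul_le_mul hkl (by omega)) h
    · omega
  let e : Basis (Fin (realRank K X)) ℤ (realCharacters K X) :=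
    Module.finBasis ℤ (realCharacters K X)
  let Lg : (X → ℂˣ) → Fin (realRank K X) → ℝ := fun g i => Real.log ‖(g (e i : X) : ℂ)‖
  have hind : LinearIndependent ℝ (fun j => Lg (y j)) := log_indep hA hL y hyL hy hkk e
  have hmul : ∀ g h : X → ℂˣ, Lg (g * h) = Lg g + Lg h := by
    intro g h
    funext i
    simp only [Lg, Pi.add_apply]
    rw [Pi.mul_apply, Units.val_mul, norm_mul, Real.log_mul]
    · exact norm_ne_zero_iff.mpr (g _).ne_zero
    · exact norm_ne_zero_iff.mpr (h _).ne_zero
  have hzpow : ∀ (g : X → ℂˣ) (n : ℤ), Lg (g ^ n) = (n : ℝ) • Lg g := by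
    intro g n
    funext i
    simp only [Lg, Pi.smul_apply, smul_eq_mul]
    rw [Pi.pow_apply, Units.val_zpow_eq_zpow_val, norm_zpow, Real.log_zpow]
  have hone : Lg 1 = 0 := by
    have := hzpow 1 0
    rw [zpow_zero] at this
    rw [this]; simp
  have hinv : ∀ g : X → ℂˣ, Lg g⁻¹ = - Lg g := by
    intro g
    have := hzpow g (-1)
    rw [zpow_neg_one] at this
    rw [this]; push_cast; simp
  have hprod : ∀ c : Fin k → ℤ, Lg (∏ j, y j ^ c j) = ∑ j, (c j : ℝ) • Lg (y j) := by
    intro c
    have h1 : ∀ s : Finset (Fin k), Lg (∏ j ∈ s, y j ^ c j) = ∑ j ∈ s, (c j : ℝ) • Lg (y j) := by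
      intro s
      induction s using Finset.induction_on with
      | empty => rw [Finset.prod_empty, Finset.sum_empty, hone]
      | insert a s ha ih =>
        rw [Finset.prod_insert ha, Finset.sum_insert ha, hmul, hzpow, ih]
    exact h1 _
  -- a common exponent
  obtain ⟨S, hS⟩ := hfg
  have hSL : ∀ g ∈ S, g ∈ L := fun g hg => by
    rw [← hS]; exact Subgroup.subset_closure hg
  choose! a c ha hac using hrel
  let N : ℤ := ∏ g ∈ S, a g
  have hN : N ≠ 0 := Finset.prod_ne_zero_iff.mpr fun g hg => ha g (hSL g hg)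
  have hNg : ∀ g ∈ L, ∃ m : Fin k → ℤ, (N : ℝ) • Lg g = ∑ j, (m j : ℝ) • Lg (y j) := by
    intro g hg
    rw [← hS] at hg
    induction hg using Subgroup.closure_induction with
    | mem g hg =>
      refine ⟨fun j => (∏ h ∈ S.erase g, a h) * c g j, ?_⟩
      have h1 : N = (∏ h ∈ S.erase g, a h) * a g := (Finset.prod_erase_mul _ _ hg).symm
      have h2 : (a g : ℝ) • Lg g = ∑ j, (c g j : ℝ) • Lg (y j) := by
        rw [← hzpow, hac g (hSL g hg), hprod]
      rw [h1]
      push_cast
      rw [mul_smul, h2, Finset.smul_sum]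
      exact Finset.sum_congr rfl fun j _ => by rw [smul_smul]
    | one => exact ⟨0, by rw [hone]; simp⟩
    | mul x x' _ _ hx hx' =>
      obtain ⟨m, hm⟩ := hx
      obtain ⟨m', hm'⟩ := hx'
      refine ⟨m + m', ?_⟩
      rw [hmul, smul_add, hm, hm', ← Finset.sum_add_distrib]
      exact Finset.sum_congr rfl fun j _ => by
        rw [Pi.add_apply]; push_cast; rw [add_smul]
    | inv x _ hx =>
      obtain ⟨m, hm⟩ := hx
      refine ⟨-m, ?_⟩
      rw [hinv, smul_neg, hm, ← Finset.sum_neg_distrib]
      exact Finset.sum_congr rfl fun j _ => by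
        rw [Pi.neg_apply]; push_cast; rw [neg_smul]
  -- the lattice is discrete
  obtain ⟨C, hC, hanti⟩ := (Fintype.linearCombination ℝ (fun j => Lg (y j))).exists_antilipschitzWith
    (by
      rw [LinearMap.ker_eq_bot]
      exact linearIndependent_iff_injective_fintypeLinearCombination.mp hind)
  have hsmall : ∀ m : Fin k → ℤ, ‖∑ j, (m j : ℝ) • Lg (y j)‖ * C < 1 → m = 0 := by
    intro m hm
    by_contra hne
    obtain ⟨j, hj⟩ := Function.ne_iff.mp hne
    have h1 := hanti.le_mul_dist (fun j => (m j : ℝ)) 0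
    rw [map_zero, dist_zero_right, dist_zero_right, Fintype.linearCombination_apply] at h1
    have h2 : ‖(m j : ℝ)‖ ≤ ‖fun j => (m j : ℝ)‖ := norm_le_pi_norm (fun j => (m j : ℝ)) j
    have h3 : (1 : ℝ) ≤ ‖(m j : ℝ)‖ := by
      rw [Real.norm_eq_abs]
      exact_mod_cast Int.one_le_abs hj
    rw [mul_comm] at hm
    linarith
  -- the torsion
  have hr0 : 0 < realRank K X := lt_of_le_of_lt (Nat.zero_le _) hkk
  have hlm0 : ∀ g ∈ L, Lg g = 0 → ∃ N : ℕ, 0 < N ∧ g ^ N = 1 := by
    intro g hg h0
    let i0 : Fin (realRank K X) := ⟨0, hr0⟩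
    have hx0 : (e i0 : X) ≠ 0 := fun h => e.ne_zero i0 (Subtype.ext h)
    have h1 := (rat_real (hL hg)).2 (e i0 : X)
    have hx0c : conjK K • (e i0 : X) = e i0 := (e i0).2
    rw [hx0c] at h1
    have h2 : (g (e i0 : X) : ℂ) = (((g (e i0 : X) : ℂ).re : ℝ) : ℂ) :=
      (Complex.conj_eq_iff_re.mp h1.symm).symm
    have h3 : ‖(g (e i0 : X) : ℂ)‖ = 1 := by
      have hpos : 0 < ‖(g (e i0 : X) : ℂ)‖ := norm_pos_iff.mpr (g _).ne_zero
      exact Real.eq_one_of_pos_of_log_eq_zero hpos (congrFun h0 i0)
    have h4 : (g (e i0 : X) : ℂ) ^ 2 = 1 := by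
      rw [h2, Complex.norm_real, Real.norm_eq_abs] at h3
      rw [h2, ← Complex.ofReal_pow, ← sq_abs, h3]
      norm_num
    obtain ⟨N, hN, h⟩ := hA (g ^ 2) (pow_mem hg 2) ⟨(e i0 : X), hx0, by
      apply Units.ext
      rw [Pi.pow_apply, Units.val_pow_eq_pow_val, h4]; rfl⟩
    exact ⟨2 * N, by omega, by rw [pow_mul]; exact h⟩
  -- the open set
  have hcont : Continuous fun g : L => ‖(N : ℝ) • Lg (g : X → ℂˣ)‖ * C := by
    have h1 : Continuous fun g : L => Lg (g : X → ℂˣ) := by
      refine continuous_pi fun i => Continuous.log ?_ ?_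
      · exact (continuous_val (e i : X)).norm.comp continuous_subtype_val
      · intro g
        exact norm_ne_zero_iff.mpr ((g : X → ℂˣ) _).ne_zero
    exact ((h1.const_smul (N : ℝ)).norm).mul continuous_const
  let U : Set L := {g : L | ‖(N : ℝ) • Lg (g : X → ℂˣ)‖ * C < 1}
  have hUo : IsOpen U := isOpen_lt hcont continuous_const
  have hUt : ∀ g ∈ U, ∃ N : ℕ, 0 < N ∧ (g : X → ℂˣ) ^ N = 1 := by
    intro g hg
    apply hlm0 _ g.2
    obtain ⟨m, hm⟩ := hNg _ g.2
    have h1 : ‖(N : ℝ) • Lg (g : X → ℂˣ)‖ * C < 1 := hg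
    rw [hm] at h1
    have h2 := hsmall m h1
    rw [h2] at hm
    have h3 : (N : ℝ) • Lg (g : X → ℂˣ) = 0 := by rw [hm]; simp
    exact (smul_eq_zero.mp h3).resolve_left (by exact_mod_cast hN)
  have hUfin : U.Finite := by
    refine Set.Finite.of_finite_image (f := fun g : L => (g : X → ℂˣ)) (hfin.subset ?_)
      Subtype.val_injective.injOn
    rintro _ ⟨g, hg, rfl⟩
    exact ⟨g.2, hUt g hg⟩
  have h1U : (1 : L) ∈ U := by
    show ‖(N : ℝ) • Lg ((1 : L) : X → ℂˣ)‖ * C < 1
    rw [Subgroup.coe_one, hone, smul_zero, norm_zero, zero_mul]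
    exact one_pos
  have hopen : IsOpen ({1} : Set L) := by
    have h5 : ({1} : Set L) = U \ (U \ {1}) := by
      ext g
      simp only [Set.mem_singleton_iff, Set.mem_sdiff, not_and, not_not]
      constructor
      · rintro rfl
        exact ⟨h1U, fun _ => rfl⟩
      · rintro ⟨h, h'⟩
        exact h' h
    rw [h5]
    exact hUo.sdiff (hUfin.subset Set.sdiff_subset).isClosed
  exact discreteTopology_of_isOpen_singleton_one hopen

end points

end Pool.Agent.U757.RT
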