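import Pool.Agent.U757.RT.Kron

/-! # The integral linear forms of a closed subgroup of a real vector space -/

set_option autoImplicit false

namespace Pool.Agent.U757.RT

open Topology Filter Module Pool.Agent.W54.CL

/-- A discrete subgroup of a real vector space has integral coordinates in some basis. -/
theorem adapted {W : Type} [NormedAddCommGroup W] [NormedSpace ℝ W] [FiniteDimensional ℝ W]
    (D : Submodule ℤ W) [DiscreteTopology D] :
    ∃ (ι' : Type) (_ : Fintype ι') (B : Basis ι' ℝ W), ∀ d ∈ D, ∀ i, ∃ n : ℤ, B.repr d i = n := by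
  classical
  let W1 : Submodule ℝ W := Submodule.span ℝ (D : Set W)
  obtain ⟨W2, hW⟩ := Submodule.exists_isCompl W1
  let D1 : Submodule ℤ W1 := D.comap (W1.subtype.restrictScalars ℤ)
  have hD1 : ∀ w : W1, w ∈ D1 ↔ (w : W) ∈ D := fun w => Iff.rfl
  have hdisc : DiscreteTopology D1 := by
    let g : D1 → D := fun z => ⟨((z : W1) : W), (hD1 _).mp z.2⟩
    have hg : Continuous g :=
      (continuous_subtype_val.comp continuous_subtype_val).subtype_mk _
    have hgi : Function.Injective g := by
      intro z z' h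
      apply Subtype.ext
      apply Subtype.ext
      exact congrArg (fun x : D => (x : W)) h
    exact DiscreteTopology.of_continuous_injective hg hgi
  have hlat : IsZLattice ℝ D1 := by
    refine ⟨?_⟩
    rw [eq_top_iff]
    intro w _
    have h1 : (w : W) ∈ (Submodule.span ℝ (D1 : Set W1)).map W1.subtype := by
      rw [Submodule.map_span]
      refine Submodule.span_mono ?_ w.2
      intro x hx
      exact ⟨⟨x, Submodule.subset_span hx⟩, hx, rfl⟩
    obtain ⟨w', hw', h⟩ := h1
    have : w' = w := Subtype.ext h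
    rwa [← this]
  have hf1 : Module.Finite ℤ D1 := ZLattice.module_finite ℝ D1
  have hf2 : Module.Free ℤ D1 := ZLattice.module_free ℝ D1
  let b := Module.Free.chooseBasis ℤ D1
  let B1 := b.ofZLatticeBasis ℝ D1
  let B2 := Module.finBasis ℝ W2
  let B := (B1.prod B2).map (Submodule.prodEquivOfIsCompl W1 W2 hW)
  refine ⟨_, inferInstance, B, fun d hd i => ?_⟩
  have hd1 : d ∈ W1 := Submodule.subset_span hd
  have h1 : (Submodule.prodEquivOfIsCompl W1 W2 hW).symm d = (⟨d, hd1⟩, 0) := by
    rw [LinearEquiv.symm_apply_eq]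
    simp
  have h2 : B.repr d = (B1.prod B2).repr (⟨d, hd1⟩, 0) := by
    change (B1.prod B2).repr ((Submodule.prodEquivOfIsCompl W1 W2 hW).symm d) = _
    rw [h1]
  rw [h2]
  rcases i with i | i
  · refine ⟨b.repr ⟨⟨d, hd1⟩, hd⟩ i, ?_⟩
    rw [Basis.prod_repr_inl]
    exact Basis.ofZLatticeBasis_repr_apply ℝ D1 b ⟨⟨d, hd1⟩, hd⟩ i
  · refine ⟨0, ?_⟩
    rw [Basis.prod_repr_inr]
    simp

/-- The integral linear forms of a closed subgroup: their number is the codimension. -/
theorem kronecker_all {E : Type} [NormedAddCommGroup E] [NormedSpace ℝ E] [FiniteDimensional ℝ E]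
    (H : AddSubgroup E) (hH : IsClosed (H : Set E)) :
    ∃ (ι' : Type) (_ : Fintype ι') (f : ι' → (E →ₗ[ℝ] ℝ)),
      (∀ v ∈ H, ∀ i, ∃ n : ℤ, f i v = n) ∧ LinearIndependent ℝ f ∧
      Fintype.card ι' + finrank ℝ (maxSub H) = finrank ℝ E := by
  classical
  obtain ⟨δ, hδ, hsmall⟩ := Pool.Agent.W929.CLOPEN.main E H hH
  obtain ⟨W, hW⟩ := Submodule.exists_isCompl (maxSub H)
  have hMH : ∀ v ∈ maxSub H, v ∈ H := by
    intro v hv
    have h1 : (1 : ℝ) • v ∈ H := hv 1
    rwa [one_smul] at h1
  let P : E →ₗ[ℝ] W := Submodule.projectionOnto W (maxSub H) hW.symm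
  have hPM : ∀ x, x - (P x : E) ∈ maxSub H := by
    intro x
    rw [← Submodule.ker_projectionOnto hW.symm, LinearMap.mem_ker, map_sub]
    have h1 : Submodule.projectionOnto W (maxSub H) hW.symm (P x : E) =
        Submodule.projectionOnto W (maxSub H) hW.symm x :=
      Submodule.projectionOnto_apply_left hW.symm _
    rw [h1, sub_self]
  have hPH : ∀ x ∈ H, (P x : E) ∈ H := by
    intro x hx
    have := H.sub_mem hx (hMH _ (hPM x))
    rwa [sub_sub_cancel] at this
  have hPW : ∀ w : W, P (w : E) = w := fun w => Submodule.projectionOnto_apply_left hW.symm w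
  let D : Submodule ℤ W := AddSubgroup.toIntSubmodule (H.comap W.subtype.toAddMonoidHom)
  have hD : ∀ w : W, w ∈ D ↔ (w : E) ∈ H := fun w => Iff.rfl
  have hdisc : DiscreteTopology D := by
    have h0 : IsOpen ({0} : Set D) := by
      rw [Metric.isOpen_iff]
      intro x hx
      refine ⟨δ, hδ, ?_⟩
      intro z hz
      rw [Set.mem_singleton_iff] at hx
      subst hx
      have h1 : ‖((z : W) : E)‖ < δ := by
        have := Metric.mem_ball.mp hz
        rw [dist_zero_right] at this
        exact this
      have h2 : ((z : W) : E) ∈ maxSub H := hsmall _ ((hD _).mp z.2) h1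
      have h3 : ((z : W) : E) ∈ maxSub H ⊓ W := ⟨h2, (z : W).2⟩
      rw [hW.inf_eq_bot, Submodule.mem_bot] at h3
      rw [Set.mem_singleton_iff]
      apply Subtype.ext
      apply Subtype.ext
      exact h3
    exact discreteTopology_of_isOpen_singleton_zero h0
  obtain ⟨ι', hι', B, hB⟩ := adapted D
  refine ⟨ι', hι', fun i => (B.coord i).comp P, ?_, ?_, ?_⟩
  · intro v hv i
    exact hB (P v) ((hD _).mpr (hPH v hv)) i
  · rw [Fintype.linearIndependent_iff]
    intro t ht i
    have h1 := LinearMap.congr_fun ht ((B i : W) : E)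
    rw [LinearMap.sum_apply] at h1
    simp only [LinearMap.smul_apply, LinearMap.comp_apply, hPW, Basis.coord_apply,
      Basis.repr_self, LinearMap.zero_apply, smul_eq_mul] at h1
    rw [Finset.sum_eq_single i] at h1
    · rwa [Finsupp.single_eq_same, mul_one] at h1
    · intro j _ hj
      rw [Finsupp.single_eq_of_ne, mul_zero]
      exact hj
    · intro h; exact absurd (Finset.mem_univ _) h
  · have h1 := Submodule.finrank_add_eq_of_isCompl hW
    have h2 := Module.finrank_eq_card_basis B
    omega

end Pool.Agent.U757.RT
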