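import Pool.Agent.U757.RT.Core
import Pool.Agent.U757.RT.KronAll
import Pool.Agent.U757.RT.LA

/-! # The codimension of the closure -/

set_option autoImplicit false
set_option linter.unusedSectionVars false

namespace Pool.Agent.U757.RT

open Module Topology Pool.Agent.W54.CL

section points

variable {K : IntermediateField ℚ ℂ} [FiniteDimensional ℚ K] [IsGalois ℚ K]
  {X : Type} [AddCommGroup X] [Module.Free ℤ X] [Module.Finite ℤ X]
  [DistribMulAction (K ≃ₐ[ℚ] K) X] {ι : Type} [Fintype ι] (b : Basis ι ℤ X)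

theorem ex_zero : ex b (0 : ι → ℂ) = 1 := by
  funext a
  apply Units.ext
  rw [ex_val, map_zero]
  simp

theorem ex_neg (v : ι → ℂ) : ex b (-v) = (ex b v)⁻¹ := by
  rw [eq_inv_iff_mul_eq_one, ← ex_add, neg_add_cancel, ex_zero]

/-- the preimage of a subgroup in the Lie algebra -/
def preim (H : Subgroup (X → ℂˣ)) : AddSubgroup (Lie b (cL K X)) where
  carrier := {v | ex b (v : ι → ℂ) ∈ H}
  add_mem' := by
    intro v w hv hw
    show ex b ((v : ι → ℂ) + w) ∈ H
    rw [ex_add]
    exact mul_mem hv hw
  zero_mem' := by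
    show ex b (0 : ι → ℂ) ∈ H
    rw [ex_zero]
    exact one_mem _
  neg_mem' := by
    intro v hv
    show ex b (-(v : ι → ℂ)) ∈ H
    rw [ex_neg]
    exact inv_mem hv

theorem mem_preim {H : Subgroup (X → ℂˣ)} {v : Lie b (cL K X)} :
    v ∈ preim b H ↔ ex b (v : ι → ℂ) ∈ H := Iff.rfl

theorem preim_closed {H : Subgroup (X → ℂˣ)} (hH : IsClosed (H : Set (X → ℂˣ))) :
    IsClosed (preim (K := K) b H : Set (Lie b (cL K X))) :=
  hH.preimage ((ex_cont b).comp continuous_subtype_val)

/-- **The codimension of the closure.** -/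
theorem codim_bound {L : Subgroup (X → ℂˣ)} (hA : ZariskiDenseElements L)
    (hL : L ≤ rationalPoints K X) {l : ℕ} (hrank : RankAtLeast L l) :
    (finrank ℝ (Lie b (cL K X)) -
      finrank ℝ (maxSub (preim (K := K) b L.topologicalClosure))) * l ≤
      (finrank ℝ (Lie b (cL K X)) -
        finrank ℝ (maxSub (preim (K := K) b L.topologicalClosure))) * realRank K X +
        realRank K X ^ 2 := by
  classical
  obtain ⟨ι', hι', f, hf, hfi, hcard⟩ := kronecker_all (preim (K := K) b L.topologicalClosure)
    (preim_closed b L.isClosed_topologicalClosure)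
  have hm : finrank ℝ (Lie b (cL K X)) -
      finrank ℝ (maxSub (preim (K := K) b L.topologicalClosure)) = Fintype.card ι' := by omega
  rw [hm]
  clear hm hcard
  choose α χ hrep using fun i => form_rep b (cL_cL K X) (f i) L.topologicalClosure
    (fun v hv => hf v hv i)
  obtain ⟨y, hyL, hy⟩ := hrank
  -- the lattice of real characters
  set r := realRank K X with hr
  let e : Basis (Fin r) ℤ (realCharacters K X) := Module.finBasis ℤ (realCharacters K X)
  have hR : ∀ i, b i + cL K X (b i) ∈ realCharacters K X := by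
    intro i
    show conjK K • (b i + cL K X (b i)) = b i + cL K X (b i)
    rw [← cL_apply, map_add, cL_cL, add_comm]
  have heR : ∀ k, cL K X (e k : X) = (e k : X) := fun k => (e k).2
  let n : ι → Fin r → ℤ := fun i k => e.repr ⟨_, hR i⟩ k
  have hn : ∀ i, b i + cL K X (b i) = ∑ k, n i k • (e k : X) := by
    intro i
    have := congrArg (fun z : realCharacters K X => (z : X)) (e.sum_repr ⟨_, hR i⟩)
    simp only [Submodule.coe_sum, Submodule.coe_smul] at this
    exact this.symm
  let lam : Lie b (cL K X) → Fin r → ℝ := fun v k => (E b (v : ι → ℂ) (e k : X)).re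
  have hlam : ∀ (v : Lie b (cL K X)) k, E b (v : ι → ℂ) (e k : X) = (lam v k : ℂ) :=
    fun v k => Lie_real b v.2 (heR k)
  let s : ι' → Fin r → ℝ := fun i' k => ∑ i, α i' i * n i k
  have hs : ∀ i' (v : Lie b (cL K X)), ∑ i, α i' i * (2 * ((v : ι → ℂ) i).re) =
      ∑ k, s i' k * lam v k := by
    intro i' v
    have h1 : ∀ i, 2 * ((v : ι → ℂ) i).re = ∑ k, (n i k : ℝ) * lam v k := by
      intro i
      have h2 := Lie_re b v.2 i
      rw [hn i, map_sum] at h2
      have h3 : ((2 * ((v : ι → ℂ) i).re : ℝ) : ℂ) = ((∑ k, (n i k : ℝ) * lam v k : ℝ) : ℂ) := by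
        rw [← h2, Complex.ofReal_sum]
        refine Finset.sum_congr rfl fun k _ => ?_
        rw [map_zsmul, hlam, zsmul_eq_mul]
        push_cast; rfl
      exact_mod_cast h3
    calc ∑ i, α i' i * (2 * ((v : ι → ℂ) i).re) = ∑ i, α i' i * ∑ k, (n i k : ℝ) * lam v k :=
          Finset.sum_congr rfl fun i _ => by rw [h1 i]
      _ = ∑ k, s i' k * lam v k := by
          simp only [Finset.mul_sum, s, Finset.sum_mul]
          rw [Finset.sum_comm]
          exact Finset.sum_congr rfl fun k _ => Finset.sum_congr rfl fun i _ => by ring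
  have hrep' : ∀ i' (v : Lie b (cL K X)), ((f i' v : ℝ) : ℂ) * (4 * Real.pi * Complex.I) =
      2 * Real.pi * Complex.I * ((∑ k, s i' k * lam v k : ℝ) : ℂ) + E b (v : ι → ℂ) (χ i') := by
    intro i' v
    rw [hrep i' v, ← hs i' v]
    congr 1
    push_cast
    rw [Finset.sum_mul, Finset.mul_sum]
    exact Finset.sum_congr rfl fun i _ => by ring
  -- the forms with integral coefficients
  have hcomb : ∀ (p : ι' → ℤ) (v : Lie b (cL K X)),
      ((∑ i', (p i' : ℝ) * f i' v : ℝ) : ℂ) * (4 * Real.pi * Complex.I) =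
      2 * Real.pi * Complex.I *
        ((∑ k, (∑ i', (p i' : ℝ) * s i' k) * lam v k : ℝ) : ℂ) +
        E b (v : ι → ℂ) (∑ i', p i' • χ i') := by
    intro p v
    have e1 : (∑ k, (∑ i', (p i' : ℝ) * s i' k) * lam v k : ℝ) =
        ∑ i', (p i' : ℝ) * ∑ k, s i' k * lam v k := by
      simp only [Finset.mul_sum, Finset.sum_mul]
      rw [Finset.sum_comm]
      exact Finset.sum_congr rfl fun i' _ => Finset.sum_congr rfl fun k _ => by ring
    rw [e1, map_sum, Complex.ofReal_sum, Complex.ofReal_sum, Finset.sum_mul, Finset.mul_sum,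
      ← Finset.sum_add_distrib]
    refine Finset.sum_congr rfl fun i' _ => ?_
    have h2 := hrep' i' v
    rw [map_zsmul, zsmul_eq_mul, Complex.ofReal_mul, Complex.ofReal_mul, mul_assoc, h2]
    push_cast
    ring
  obtain ⟨k1, k2, p1, p2, hk, hp2, hi2, hp1⟩ := split (fun i' j => b.repr (χ i') j)
  -- the characters
  have hχ2 : ∀ t, ∑ i', p2 t i' • χ i' = 0 := by
    intro t
    apply b.repr.injective
    rw [map_zero]
    ext j
    rw [map_sum, Finsupp.finsetSum_apply]
    have := hp2 t j
    rw [Finsupp.zero_apply, ← this]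
    refine Finset.sum_congr rfl fun i' _ => ?_
    rw [map_zsmul, Finsupp.smul_apply, smul_eq_mul]
  have hχ1 : ∀ z : Fin k1 → ℤ, z ≠ 0 → ∑ q, z q • ∑ i', p1 q i' • χ i' ≠ 0 := by
    intro z hz h
    apply hz
    apply hp1
    intro j
    have h1 := congrArg (fun a => b.repr a j) h
    simp only [map_sum, map_zsmul, map_zero, Finsupp.zero_apply, Finsupp.finsetSum_apply,
      Finsupp.smul_apply, smul_eq_mul] at h1
    exact h1
  let s1 : Fin k1 → Fin r → ℝ := fun q k => ∑ i', (p1 q i' : ℝ) * s i' k
  let s2 : Fin k2 → Fin r → ℝ := fun t k => ∑ i', (p2 t i' : ℝ) * s i' k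
  have hcomb1 : ∀ (q : Fin k1) (v : Lie b (cL K X)),
      ((∑ i', (p1 q i' : ℝ) * f i' v : ℝ) : ℂ) * (4 * Real.pi * Complex.I) =
      2 * Real.pi * Complex.I * ((∑ k, s1 q k * lam v k : ℝ) : ℂ) +
        E b (v : ι → ℂ) (∑ i', p1 q i' • χ i') := fun q v => hcomb (p1 q) v
  have hcomb2 : ∀ (q : Fin k2) (v : Lie b (cL K X)),
      ((∑ i', (p2 q i' : ℝ) * f i' v : ℝ) : ℂ) * (4 * Real.pi * Complex.I) =
      2 * Real.pi * Complex.I * ((∑ k, s2 q k * lam v k : ℝ) : ℂ) +
        E b (v : ι → ℂ) (∑ i', p2 q i' • χ i') := fun q v => hcomb (p2 q) v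
  clear_value s1 s2
  have h2pi : (2 * Real.pi * Complex.I : ℂ) ≠ 0 := Pool.Agent.W254.HP.two_pi_ne
  have hform2 : ∀ t (v : Lie b (cL K X)),
      ∑ i', (p2 t i' : ℝ) * f i' v = (∑ k, s2 t k * lam v k) / 2 := by
    intro t v
    have h1 := hcomb2 t v
    rw [hχ2 t, map_zero, add_zero] at h1
    have h3 : ((∑ i', (p2 t i' : ℝ) * f i' v : ℝ) : ℂ) =
        (((∑ k, s2 t k * lam v k) / 2 : ℝ) : ℂ) := by
      have h4 : (2 * Real.pi * Complex.I : ℂ) * ((∑ i', (p2 t i' : ℝ) * f i' v : ℝ) : ℂ) =
          (2 * Real.pi * Complex.I : ℂ) * (((∑ k, s2 t k * lam v k) / 2 : ℝ) : ℂ) := by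
        rw [Complex.ofReal_div]
        push_cast at h1 ⊢
        linear_combination (1 / 2 : ℂ) * h1
      exact mul_left_cancel₀ h2pi h4
    exact_mod_cast h3
  have hs2 : LinearIndependent ℝ s2 := by
    rw [Fintype.linearIndependent_iff]
    intro τ hτ
    have h1 : ∑ i', (∑ t, τ t * (p2 t i' : ℝ)) • f i' = 0 := by
      apply LinearMap.ext
      intro v
      rw [LinearMap.sum_apply, LinearMap.zero_apply]
      simp only [LinearMap.smul_apply, smul_eq_mul, Finset.sum_mul]
      rw [Finset.sum_comm]
      have h2 : ∀ t, ∑ i', τ t * (p2 t i' : ℝ) * f i' v =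
          (∑ k, (τ t * s2 t k) * lam v k) / 2 := by
        intro t
        have h3 := hform2 t v
        calc ∑ i', τ t * (p2 t i' : ℝ) * f i' v = τ t * ∑ i', (p2 t i' : ℝ) * f i' v := by
              rw [Finset.mul_sum]; exact Finset.sum_congr rfl fun i' _ => by ring
          _ = _ := by
              rw [h3, mul_div_assoc', Finset.mul_sum]
              congr 1
              exact Finset.sum_congr rfl fun k _ => by ring
      simp only [h2]
      rw [← Finset.sum_div, Finset.sum_comm]
      have h4 : ∀ k, ∑ t, τ t * s2 t k = 0 := by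
        intro k
        have := congrFun hτ k
        rw [Finset.sum_apply] at this
        simpa using this
      have h5 : ∑ k, ∑ t, τ t * s2 t k * lam v k = 0 :=
        Finset.sum_eq_zero fun k _ => by rw [← Finset.sum_mul, h4 k, zero_mul]
      rw [h5, zero_div]
    have h6 := Fintype.linearIndependent_iff.mp hfi _ h1
    exact fun t => congrFun (indep_real p2 hi2 τ h6) t
  -- the squares of the independent elements
  choose V hV using fun j => square b (rat_real (hL (hyL j)))
  have hVL : ∀ j, ex b (V j : ι → ℂ) ∈ L := fun j => by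
    rw [hV j]; exact pow_mem (hyL j) 2
  have htor : ∀ c : Fin l → ℤ,
      (∃ N : ℕ, 0 < N ∧ (∏ j, ex b (V j : ι → ℂ) ^ c j) ^ N = 1) → c = 0 := by
    rintro c ⟨N, hN, h⟩
    have h1 := hy (fun j => 2 * c j * N) (by
      rw [← h, ← Finset.prod_pow]
      refine Finset.prod_congr rfl fun j _ => ?_
      rw [hV j, ← zpow_natCast, ← zpow_natCast, ← zpow_mul, ← zpow_mul]
      congr 1
      push_cast
      ring)
    funext j
    have h2 := congrFun h1 j
    simp only [Pi.zero_apply] at h2
    have h3 : (N : ℤ) ≠ 0 := by exact_mod_cast hN.ne'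
    rcases mul_eq_zero.mp h2 with h4 | h4
    · rcases mul_eq_zero.mp h4 with h5 | h5
      · norm_num at h5
      · exact h5
    · exact absurd h4 h3
  -- the integral values of the second forms
  have hint : ∀ v : Lie b (cL K X), ex b (v : ι → ℂ) ∈ L → ∀ p : ι' → ℤ,
      ∃ N : ℤ, ∑ i', (p i' : ℝ) * f i' v = N := by
    intro v hv p
    choose N hN using fun i' => hf v (L.le_topologicalClosure hv) i'
    refine ⟨∑ i', p i' * N i', ?_⟩
    push_cast
    exact Finset.sum_congr rfl fun i' _ => by rw [hN i']
  choose N2 hN2 using fun t j => hint (V j) (hVL j) (p2 t)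
  obtain ⟨l', c, hl', hc0, hci⟩ := sublattice N2
  rw [Fintype.card_fin] at hl'
  let w : Fin l' → Lie b (cL K X) := fun q => ∑ j, c q j • V j
  have hw : ∀ q, ((w q : Lie b (cL K X)) : ι → ℂ) = ∑ j, c q j • (V j : ι → ℂ) := by
    intro q
    simp only [w, Submodule.coe_sum]
    exact Finset.sum_congr rfl fun j _ => rfl
  have hwL : ∀ q, ex b (w q : ι → ℂ) ∈ L := by
    intro q
    rw [hw, ex_sum]
    exact prod_mem fun j _ => zpow_mem (hVL j) _
  have hlamw : ∀ (κ : Type) (S : Finset κ) (v : κ → Lie b (cL K X)) (z : κ → ℤ) k,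
      lam (∑ j ∈ S, z j • v j) k = ∑ j ∈ S, (z j : ℝ) * lam (v j) k := by
    intro κ S v z k
    have h1 : ((∑ j ∈ S, z j • v j : Lie b (cL K X)) : ι → ℂ) =
        ∑ j ∈ S, z j • (v j : ι → ℂ) := by
      rw [Submodule.coe_sum]
      exact Finset.sum_congr rfl fun j _ => rfl
    simp only [lam]
    rw [h1, map_sum, LinearMap.sum_apply, Complex.re_sum]
    refine Finset.sum_congr rfl fun j _ => ?_
    rw [map_zsmul, LinearMap.smul_apply, zsmul_eq_mul, Complex.mul_re]
    simp
  have hfw : ∀ (κ : Type) (S : Finset κ) (v : κ → Lie b (cL K X)) (z : κ → ℤ) i',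
      f i' (∑ j ∈ S, z j • v j) = ∑ j ∈ S, (z j : ℝ) * f i' (v j) := by
    intro κ S v z i'
    rw [map_sum]
    refine Finset.sum_congr rfl fun j _ => ?_
    rw [map_zsmul, zsmul_eq_mul]
  have hker : ∀ q t, ∑ k, s2 t k * lam (w q) k = 0 := by
    intro q t
    have h1 := hform2 t (w q)
    have h2 : ∑ i', (p2 t i' : ℝ) * f i' (w q) = 0 := by
      calc ∑ i', (p2 t i' : ℝ) * f i' (w q)
          = ∑ i', (p2 t i' : ℝ) * ∑ j, (c q j : ℝ) * f i' (V j) :=
            Finset.sum_congr rfl fun i' _ => by rw [← hfw]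
        _ = ∑ j, (c q j : ℝ) * ∑ i', (p2 t i' : ℝ) * f i' (V j) := by
            simp only [Finset.mul_sum]
            rw [Finset.sum_comm]
            exact Finset.sum_congr rfl fun j _ => Finset.sum_congr rfl fun i' _ => by ring
        _ = ((∑ j, c q j * N2 t j : ℤ) : ℝ) := by
            push_cast
            exact Finset.sum_congr rfl fun j _ => by rw [hN2 t j]
        _ = 0 := by rw [hc0 q t]; simp
    rw [h2] at h1
    linarith
  obtain ⟨ρ, β, z, hρ, hβ⟩ := factor s2 hs2 (fun q => lam (w q)) hker
  rw [Fintype.card_fin] at hρ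
  -- the numerical conclusion
  rcases Nat.eq_zero_or_pos l' with hl0 | hl0
  · have h1 : l ≤ r := by omega
    calc Fintype.card ι' * l ≤ Fintype.card ι' * r := Nat.mul_le_mul_left _ h1
      _ ≤ _ := Nat.le_add_right _ _
  have hmain : Fintype.card (Fin r ⊕ Fin k1) * Fintype.card (Fin l') ≤
      ρ * (Fintype.card (Fin l') + Fintype.card (Fin r ⊕ Fin k1)) := by
    refine rank_bound' (R := Fin r ⊕ Fin k1) (P := Fin l')
      (fun j q => Sum.elim (fun k => ((lam (w q) k : ℝ) : ℂ))
        (fun i => -(2 * Real.pi * Complex.I * ((∑ k, s1 i k * lam (w q) k : ℝ) : ℂ))) j)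
      (fun a j => Sum.elim (fun k => ((β a k : ℝ) : ℂ))
        (fun i => -(2 * Real.pi * Complex.I * ((∑ k, s1 i k * β a k : ℝ) : ℂ))) j)
      (fun a q => ((z q a : ℝ) : ℂ)) ?_ ?_ ?_ (by rw [Fintype.card_fin]; exact hl0)
    · rintro (k | i) q
      · rw [Sum.elim_inl, ← hlam, ← ex_val]
        exact rat_alg (hL (hwL q)) _
      · rw [Sum.elim_inr]
        have h1 := hcomb1 i (w q)
        obtain ⟨N, hN⟩ := hint (w q) (hwL q) (p1 i)
        rw [hN] at h1
        have h2 : Complex.exp (-(2 * Real.pi * Complex.I *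
            ((∑ k, s1 i k * lam (w q) k : ℝ) : ℂ))) =
            (ex b (w q : ι → ℂ) (∑ i', p1 i i' • χ i') : ℂ) := by
          rw [ex_val]
          have h3 : E b (w q : ι → ℂ) (∑ i', p1 i i' • χ i') =
              ((2 * N : ℤ) : ℂ) * (2 * Real.pi * Complex.I) +
              -(2 * Real.pi * Complex.I * ((∑ k, s1 i k * lam (w q) k : ℝ) : ℂ)) := by
            push_cast at h1 ⊢
            linear_combination -h1
          rw [h3, Complex.exp_add, Complex.exp_int_mul_two_pi_mul_I, one_mul]
        rw [h2]
        exact rat_alg (hL (hwL q)) _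
    · rintro (k | i) q
      · simp only [Sum.elim_inl]
        rw [hβ q k]
        push_cast
        exact Finset.sum_congr rfl fun a _ => by ring
      · simp only [Sum.elim_inr]
        have h1 : (∑ k, s1 i k * lam (w q) k : ℝ) = ∑ a, (∑ k, s1 i k * β a k) * z q a := by
          simp only [hβ, Finset.mul_sum, Finset.sum_mul]
          rw [Finset.sum_comm]
          exact Finset.sum_congr rfl fun a _ => Finset.sum_congr rfl fun k _ => by ring
        rw [h1, Complex.ofReal_sum, Finset.mul_sum, ← Finset.sum_neg_distrib]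
        refine Finset.sum_congr rfl fun a _ => ?_
        rw [Complex.ofReal_mul]; ring
    · intro m σ hm hex
      obtain ⟨N, hN⟩ := hex
      -- the combination of the points
      let Wt : Lie b (cL K X) := ∑ q, σ q • w q
      have hWt : (Wt : ι → ℂ) = ∑ j, (∑ q, σ q * c q j) • (V j : ι → ℂ) := by
        simp only [Wt, Submodule.coe_sum]
        have h1 : ∀ q, ((σ q • w q : Lie b (cL K X)) : ι → ℂ) =
            ∑ j, (σ q * c q j) • (V j : ι → ℂ) := by
          intro q
          have h0 : ((σ q • w q : Lie b (cL K X)) : ι → ℂ) = σ q • (w q : ι → ℂ) := rfl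
          rw [h0, hw q, Finset.smul_sum]
          exact Finset.sum_congr rfl fun j _ => smul_smul _ _ _
        simp only [h1]
        rw [Finset.sum_comm]
        exact Finset.sum_congr rfl fun j _ => (Finset.sum_smul).symm
      have hWL : ex b (Wt : ι → ℂ) ∈ L := by
        rw [hWt, ex_sum]
        exact prod_mem fun j _ => zpow_mem (hVL j) _
      have hlW : ∀ k, lam Wt k = ∑ q, (σ q : ℝ) * lam (w q) k := fun k => hlamw _ _ _ _ _
      have hsum : ((∑ k, (m (Sum.inl k) : ℝ) * lam Wt k : ℝ) : ℂ) +
          -((2 * Real.pi * (∑ i, (m (Sum.inr i) : ℝ) * ∑ k, s1 i k * lam Wt k) : ℝ) : ℂ) *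
            Complex.I = ((2 * Real.pi * N : ℝ) : ℂ) * Complex.I := by
        have h0 : ((2 * Real.pi * N : ℝ) : ℂ) * Complex.I = N * (2 * Real.pi * Complex.I) := by
          push_cast; ring
        rw [h0, ← hN, Fintype.sum_sum_type]
        simp only [Sum.elim_inl, Sum.elim_inr]
        congr 1
        · simp only [hlW]
          push_cast
          refine Finset.sum_congr rfl fun k _ => ?_
          rw [Finset.mul_sum]
          exact Finset.sum_congr rfl fun q _ => by ring
        · have h1 : ∀ i, (∑ k, s1 i k * lam Wt k : ℝ) =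
              ∑ q, (σ q : ℝ) * ∑ k, s1 i k * lam (w q) k := by
            intro i
            simp only [hlW, Finset.mul_sum]
            rw [Finset.sum_comm]
            exact Finset.sum_congr rfl fun q _ => Finset.sum_congr rfl fun k _ => by ring
          simp only [h1]
          push_cast
          simp only [Finset.mul_sum, Finset.sum_mul, ← Finset.sum_neg_distrib, neg_mul]
          refine Finset.sum_congr rfl fun i _ => Finset.sum_congr rfl fun q _ => ?_
          refine Finset.sum_congr rfl fun k _ => ?_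
          ring
      have hre := congrArg Complex.re hsum
      have him := congrArg Complex.im hsum
      simp only [Complex.add_re, Complex.ofReal_re, Complex.mul_re, Complex.I_re,
        Complex.ofReal_im, Complex.I_im, mul_zero, sub_zero, add_zero,
        Complex.neg_re, Complex.neg_im, neg_zero, mul_one] at hre
      simp only [Complex.add_im, Complex.ofReal_im, Complex.mul_im, Complex.ofReal_re,
        Complex.I_im, Complex.I_re, mul_one, mul_zero, add_zero, zero_add, Complex.neg_re,
        Complex.neg_im, neg_zero] at him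
      have htors : ∃ a : X, a ≠ 0 ∧ ex b (Wt : ι → ℂ) a = 1 := by
        by_cases hml : (fun k => m (Sum.inl k)) = 0
        · have hmr : (fun i => m (Sum.inr i)) ≠ 0 := by
            intro h
            apply hm
            funext j
            rcases j with k | i
            · exact congrFun hml k
            · exact congrFun h i
          refine ⟨∑ i, m (Sum.inr i) • ∑ i', p1 i i' • χ i', hχ1 _ hmr, ?_⟩
          apply Units.ext
          rw [ex_val, map_sum]
          choose M hM using fun i => hint Wt hWL (p1 i)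
          have h1 : ∑ i, E b (Wt : ι → ℂ) (m (Sum.inr i) • ∑ i', p1 i i' • χ i') =
              ((∑ i, m (Sum.inr i) * (2 * M i) + N : ℤ) : ℂ) * (2 * Real.pi * Complex.I) := by
            have h2 : ∀ i, E b (Wt : ι → ℂ) (m (Sum.inr i) • ∑ i', p1 i i' • χ i') =
                (m (Sum.inr i) : ℂ) * (2 * M i) * (2 * Real.pi * Complex.I) -
                (2 * Real.pi * Complex.I) * ((m (Sum.inr i) : ℝ) *
                  ((∑ k, s1 i k * lam Wt k : ℝ) : ℂ)) := by
              intro i
              have h3 := hcomb1 i Wt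
              rw [hM i] at h3
              rw [map_zsmul, zsmul_eq_mul]
              have h4 : E b (Wt : ι → ℂ) (∑ i', p1 i i' • χ i') =
                  ((M i : ℝ) : ℂ) * (4 * Real.pi * Complex.I) - 2 * Real.pi * Complex.I *
                  ((∑ k, s1 i k * lam Wt k : ℝ) : ℂ) := by
                linear_combination -h3
              rw [h4]
              push_cast
              ring
            simp only [h2]
            rw [Finset.sum_sub_distrib, ← Finset.mul_sum, ← Finset.sum_mul]
            have h5 : ((∑ i, (m (Sum.inr i) : ℝ) * ∑ k, s1 i k * lam Wt k : ℝ) : ℂ) =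
                -(N : ℂ) := by
              have h6 : (2 * Real.pi) * (∑ i, (m (Sum.inr i) : ℝ) * ∑ k, s1 i k * lam Wt k) =
                  (2 * Real.pi) * (-(N : ℝ)) := by linarith
              have h7 := mul_left_cancel₀ (by positivity) h6
              rw [h7]; push_cast; rfl
            have h8 : ∑ i, ((m (Sum.inr i) : ℝ) : ℂ) * ((∑ k, s1 i k * lam Wt k : ℝ) : ℂ) =
                -(N : ℂ) := by
              rw [← h5]; push_cast; rfl
            rw [h8]
            push_cast
            ring
          rw [h1, Complex.exp_int_mul_two_pi_mul_I]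
          rfl
        · refine ⟨∑ k, m (Sum.inl k) • (e k : X), ?_, ?_⟩
          · intro h
            apply hml
            have h1 : ∑ k, m (Sum.inl k) • e k = 0 := by
              apply Subtype.ext
              simp only [Submodule.coe_sum, Submodule.coe_smul, Submodule.coe_zero]
              exact h
            funext k
            exact Fintype.linearIndependent_iff.mp e.linearIndependent
              (fun k => m (Sum.inl k)) h1 k
          · apply Units.ext
            rw [ex_val, map_sum]
            have h1 : ∑ k, E b (Wt : ι → ℂ) (m (Sum.inl k) • (e k : X)) =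
                ((∑ k, (m (Sum.inl k) : ℝ) * lam Wt k : ℝ) : ℂ) := by
              rw [Complex.ofReal_sum]
              refine Finset.sum_congr rfl fun k _ => ?_
              rw [map_zsmul, hlam, zsmul_eq_mul]
              push_cast; rfl
            rw [h1, hre]
            simp
      obtain ⟨M, hM, hMt⟩ := hA _ hWL htors
      apply hci
      have h9 := htor (fun j => ∑ q, σ q * c q j) ⟨M, hM, by rw [← ex_sum, ← hWt]; exact hMt⟩
      exact fun j => congrFun h9 j
  rw [Fintype.card_sum, Fintype.card_fin, Fintype.card_fin, Fintype.card_fin] at hmain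
  rw [← hk]
  -- (k1 + k2) l ≤ (k1 + k2) r + r ^ 2
  have h10 : (k1 + k2) * l' ≤ ρ * (r + k1) := by
    have h11 : (r + k1) * l' = ρ * l' + (k1 + k2) * l' := by
      rw [← add_mul]
      congr 1
      omega
    have h12 : ρ * (l' + (r + k1)) = ρ * l' + ρ * (r + k1) := by ring
    rw [h11, h12] at hmain
    omega
  obtain ⟨rr, hrr⟩ : ∃ rr, rr = r := ⟨r, rfl⟩
  have h13 : (k1 + k2) * l ≤ (k1 + k2) * (l' + k2) := Nat.mul_le_mul_left _ hl'
  have h14 : r = ρ + k2 := hρ.symm
  have h15 : (k1 + k2) * (l' + k2) ≤ ρ * (r + k1) + (k1 + k2) * k2 := by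
    rw [mul_add]; omega
  refine h13.trans (h15.trans ?_)
  rw [h14]
  nlinarith

end points

end Pool.Agent.U757.RT
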