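import Pool.Agent.W929.CL.OPEN

/-! # Proper closed subgroups of a real vector space have an integral linear form -/

set_option autoImplicit false

namespace Pool.Agent.U757.RT

open Topology Filter Module Pool.Agent.W54.CL

/-- A proper closed subgroup of a finite dimensional real vector space is mapped to the integers by
a nonzero linear form. -/
theorem kronecker {E : Type} [NormedAddCommGroup E] [NormedSpace ℝ E] [FiniteDimensional ℝ E]
    (H : AddSubgroup E) (hH : IsClosed (H : Set E)) (hne : ¬ ∀ v, v ∈ H) :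
    ∃ f : E →ₗ[ℝ] ℝ, f ≠ 0 ∧ ∀ v ∈ H, ∃ n : ℤ, f v = n := by
  classical
  by_cases hspan : Submodule.span ℝ (H : Set E) = ⊤
  swap
  · obtain ⟨f, hf, hf0⟩ := Submodule.exists_le_ker_of_lt_top _ (lt_top_iff_ne_top.2 hspan)
    refine ⟨f, hf, fun v hv => ⟨0, ?_⟩⟩
    have := hf0 (Submodule.subset_span hv)
    rw [LinearMap.mem_ker] at this
    rw [this]; simp
  obtain ⟨δ, hδ, hsmall⟩ := Pool.Agent.W929.CLOPEN.main E H hH
  obtain ⟨W, hW⟩ := Submodule.exists_isCompl (maxSub H)
  have hMH : ∀ v ∈ maxSub H, v ∈ H := by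
    intro v hv
    have h1 : (1 : ℝ) • v ∈ H := hv 1
    rwa [one_smul] at h1
  let P : E →ₗ[ℝ] W := Submodule.projectionOnto W (maxSub H) hW.symm
  have hPM : ∀ x, x - (P x : E) ∈ maxSub H := by
    intro x
    rw [← Submodule.ker_projectionOnto hW.symm, LinearMap.mem_ker, map_sub]
    have h1 : Submodule.projectionOnto W (maxSub H) hW.symm (P x : E) =
        Submodule.projectionOnto W (maxSub H) hW.symm x :=
      Submodule.projectionOnto_apply_left hW.symm _
    rw [h1, sub_self]
  have hPH : ∀ x ∈ H, (P x : E) ∈ H := by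
    intro x hx
    have := H.sub_mem hx (hMH _ (hPM x))
    rwa [sub_sub_cancel] at this
  have hPW : ∀ w : W, P (w : E) = w := fun w => Submodule.projectionOnto_apply_left hW.symm w
  let D : Submodule ℤ W := AddSubgroup.toIntSubmodule (H.comap W.subtype.toAddMonoidHom)
  have hD : ∀ w : W, w ∈ D ↔ (w : E) ∈ H := fun w => Iff.rfl
  have : DiscreteTopology D := by
    have h0 : IsOpen ({0} : Set D) := by
      rw [Metric.isOpen_iff]
      intro x hx
      refine ⟨δ, hδ, ?_⟩
      intro z hz
      rw [Set.mem_singleton_iff] at hx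
      subst hx
      have h1 : ‖((z : W) : E)‖ < δ := by
        have := Metric.mem_ball.mp hz
        rw [dist_zero_right] at this
        exact this
      have h2 : ((z : W) : E) ∈ maxSub H := hsmall _ ((hD _).mp z.2) h1
      have h3 : ((z : W) : E) ∈ maxSub H ⊓ W := ⟨h2, (z : W).2⟩
      rw [hW.inf_eq_bot, Submodule.mem_bot] at h3
      rw [Set.mem_singleton_iff]
      apply Subtype.ext
      apply Subtype.ext
      exact h3
    exact discreteTopology_of_isOpen_singleton_zero h0
  have : IsZLattice ℝ D := by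
    refine ⟨?_⟩
    rw [eq_top_iff]
    intro w _
    have h1 : (w : E) ∈ Submodule.span ℝ (H : Set E) := by rw [hspan]; trivial
    have h2 : P (w : E) ∈ (Submodule.span ℝ (H : Set E)).map P := Submodule.mem_map_of_mem h1
    rw [hPW, Submodule.map_span] at h2
    refine Submodule.span_mono ?_ h2
    rintro _ ⟨x, hx, rfl⟩
    exact (hD _).mpr (hPH x hx)
  have : Module.Finite ℤ D := ZLattice.module_finite ℝ D
  have : Module.Free ℤ D := ZLattice.module_free ℝ D
  let b := Module.Free.chooseBasis ℤ D
  let B := b.ofZLatticeBasis ℝ D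
  have hne' : Nonempty (Module.Free.ChooseBasisIndex ℤ D) := by
    by_contra hem
    rw [not_nonempty_iff] at hem
    apply hne
    intro v
    have h1 : P v = 0 := by
      have := B.sum_repr (P v)
      rw [← this]
      simp
    have h2 := hMH _ (hPM v)
    rw [h1] at h2
    simpa using h2
  obtain ⟨i⟩ := hne'
  refine ⟨(B.coord i).comp P, ?_, ?_⟩
  · intro h0
    have h1 := LinearMap.congr_fun h0 ((B i : W) : E)
    rw [LinearMap.comp_apply, hPW, Basis.coord_apply, Basis.repr_self] at h1
    simp at h1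
  · intro v hv
    refine ⟨b.repr ⟨P v, (hD _).mpr (hPH v hv)⟩ i, ?_⟩
    rw [LinearMap.comp_apply, Basis.coord_apply]
    exact Basis.ofZLatticeBasis_repr_apply ℝ D b ⟨P v, (hD _).mpr (hPH v hv)⟩ i

/-- The same for the preimage of a closed subgroup under a homomorphism. -/
theorem kronecker_hom {E G : Type} [NormedAddCommGroup E] [NormedSpace ℝ E]
    [FiniteDimensional ℝ E] [CommGroup G] [TopologicalSpace G] (ψ : E → G)
    (hadd : ∀ x y, ψ (x + y) = ψ x * ψ y) (hc : Continuous ψ) (H : Subgroup G)
    (hH : IsClosed (H : Set G)) (hne : ¬ ∀ v, ψ v ∈ H) :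
    ∃ f : E →ₗ[ℝ] ℝ, f ≠ 0 ∧ ∀ v, ψ v ∈ H → ∃ n : ℤ, f v = n := by
  have h0 : ψ 0 = 1 := by
    have := hadd 0 0
    rw [add_zero] at this
    exact (mul_eq_left.1 this.symm)
  have hneg : ∀ x, ψ (-x) = (ψ x)⁻¹ := by
    intro x
    rw [eq_inv_iff_mul_eq_one, ← hadd, neg_add_cancel, h0]
  let H' : AddSubgroup E :=
    { carrier := {v | ψ v ∈ H}
      add_mem' := by
        intro a b ha hb
        show ψ (a + b) ∈ H
        rw [hadd]
        exact mul_mem ha hb
      zero_mem' := by
        show ψ 0 ∈ H
        rw [h0]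
        exact one_mem _
      neg_mem' := by
        intro a ha
        show ψ (-a) ∈ H
        rw [hneg]
        exact inv_mem ha }
  exact kronecker H' (hH.preimage hc) hne

end Pool.Agent.U757.RT
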