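import Pool.Agent.W254.HP.PartC

/-! # An application of the hyperplane theorem (linear subgroup theorem) over `ℚ` -/

set_option autoImplicit false

namespace Pool.Agent.U757.RT

open Module Finset Pool.Agent.W254.HP

theorem clear_den {ι : Type*} [Fintype ι] (q : ι → ℚ) :
    ∃ D : ℚ, D ≠ 0 ∧ ∃ m : ι → ℤ, ∀ i, (m i : ℚ) = D * q i := by
  classical
  refine ⟨∏ j, ((q j).den : ℚ), ?_, ?_⟩
  · exact Finset.prod_ne_zero_iff.mpr fun j _ => by exact_mod_cast (q j).den_ne_zero
  · have : ∀ i, ∃ m : ℤ, (m : ℚ) = (∏ j, ((q j).den : ℚ)) * q i := by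
      intro i
      refine ⟨(∏ j ∈ Finset.univ.erase i, ((q j).den : ℤ)) * (q i).num, ?_⟩
      rw [← Finset.prod_erase_mul _ _ (Finset.mem_univ i)]
      push_cast
      rw [mul_assoc, Rat.den_mul_eq_num]
    choose m hm using this
    exact ⟨m, hm⟩

/-- rational numbers as elements of the smallest subfield of `ℂ` -/
theorem bot_rat (x : (⊥ : IntermediateField ℚ ℂ)) : ∃ q : ℚ, (x : ℂ) = (q : ℂ) := by
  obtain ⟨q, hq⟩ := IntermediateField.mem_bot.mp x.2
  exact ⟨q, by rw [← hq]; simp⟩

theorem transc (m l : ℕ) (s : Fin m → ℝ) (hs : s ≠ 0) (lam : Fin l → Fin m → ℝ)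
    (h1 : ∀ j k, IsAlgebraic ℚ (Complex.exp (lam j k : ℂ)))
    (h2 : ∀ j, IsAlgebraic ℚ
      (Complex.exp (2 * Real.pi * Complex.I * ((∑ k, s k * lam j k : ℝ) : ℂ))))
    (hl : m ^ 2 + m < l) :
    ∃ (c : Fin l → ℤ) (n : Fin m → ℤ), c ≠ 0 ∧ n ≠ 0 ∧
      ∑ k, (n k : ℝ) * ∑ j, (c j : ℝ) * lam j k = 0 := by
  classical
  let W : Submodule ℚ ℝ := Submodule.span ℚ (Set.range s)
  have : FiniteDimensional ℚ W := FiniteDimensional.span_of_finite ℚ (Set.finite_range s)
  have hsW : ∀ k, s k ∈ W := fun k => Submodule.subset_span ⟨k, rfl⟩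
  have hWm : finrank ℚ W ≤ m := by
    have := finrank_range_le_card (R := ℚ) s
    rwa [Fintype.card_fin] at this
  have hWpos : 0 < finrank ℚ W := by
    obtain ⟨k, hk⟩ := Function.ne_iff.mp hs
    have : Nontrivial W := ⟨⟨⟨s k, hsW k⟩, 0, fun h => hk (congrArg Subtype.val h)⟩⟩
    exact Module.finrank_pos
  generalize hr : finrank ℚ W = r at hWm hWpos
  let w : Basis (Fin r) ℚ W := (Module.finBasis ℚ W).reindex (finCongr hr)
  -- coordinates
  let q : Fin m → Fin r → ℚ := fun k p => w.repr ⟨s k, hsW k⟩ p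
  have hq : ∀ k, s k = ∑ p, (q k p : ℝ) * ((w p : W) : ℝ) := by
    intro k
    have := congrArg (fun z : W => (z : ℝ)) (w.sum_repr ⟨s k, hsW k⟩)
    simp only [Submodule.coe_sum, Submodule.coe_smul] at this
    rw [← this]
    refine Finset.sum_congr rfl fun p _ => ?_
    rw [Rat.smul_def]
  set tw : ℂ := 2 * Real.pi * Complex.I with htw
  have htw0 : tw ≠ 0 := two_pi_ne
  let x : Fin (r + 1) → ℂ := Fin.cons 1 fun p => tw * (((w p : W) : ℝ) : ℂ)
  let a : Fin (r + 1) → Fin l → ℂ :=
    Fin.cons (fun j => -(tw * ((∑ k, s k * lam j k : ℝ) : ℂ)))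
      fun p j => ((∑ k, (q k p : ℝ) * lam j k : ℝ) : ℂ)
  have hx : ∀ c : Fin (r + 1) → (⊥ : IntermediateField ℚ ℂ), ∑ i, (c i : ℂ) * x i = 0 →
      ∀ i, c i = 0 := by
    intro c hc
    choose d hd using fun i => bot_rat (c i)
    rw [Fin.sum_univ_succ] at hc
    simp only [x, Fin.cons_zero, Fin.cons_succ, mul_one, hd] at hc
    have e1 : ∑ p : Fin r, (d p.succ : ℂ) * (tw * (((w p : W) : ℝ) : ℂ)) =
        ((2 * Real.pi * ∑ p : Fin r, (d p.succ : ℝ) * ((w p : W) : ℝ) : ℝ) : ℂ) * Complex.I := by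
      push_cast
      rw [Finset.mul_sum, Finset.sum_mul]
      refine Finset.sum_congr rfl fun p _ => ?_
      rw [htw]; ring
    rw [e1] at hc
    have hre := congrArg Complex.re hc
    have him := congrArg Complex.im hc
    have e2 : ((d 0 : ℚ) : ℂ) = ((d 0 : ℝ) : ℂ) := by push_cast; rfl
    rw [e2] at hre him
    simp only [Complex.add_re, Complex.ofReal_re, Complex.mul_re, Complex.I_re, Complex.ofReal_im,
      Complex.I_im, mul_zero, zero_mul, sub_zero, add_zero, Complex.zero_re] at hre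
    simp only [Complex.add_im, Complex.ofReal_im, Complex.mul_im, Complex.ofReal_re, Complex.I_im,
      Complex.I_re, mul_one, mul_zero, add_zero, zero_add, Complex.zero_im] at him
    have h0 : d 0 = 0 := by exact_mod_cast hre
    have h3 : ∑ p : Fin r, (d p.succ : ℝ) * ((w p : W) : ℝ) = 0 := by
      rcases mul_eq_zero.mp him with h | h
      · exact absurd h (by positivity)
      · exact h
    have h4 : ∑ p : Fin r, d p.succ • w p = 0 := by
      apply Subtype.ext
      simp only [Submodule.coe_sum, Submodule.coe_smul, Submodule.coe_zero]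
      rw [← h3]
      refine Finset.sum_congr rfl fun p _ => ?_
      rw [Rat.smul_def]
    have h5 := Fintype.linearIndependent_iff.mp w.linearIndependent (fun p => d p.succ) h4
    intro i
    apply Subtype.ext
    rw [hd i]
    refine Fin.cases ?_ (fun p => ?_) i
    · rw [h0]; simp
    · rw [h5 p]; simp
  have ha : ∀ i j, a i j ∈ LK (⊥ : IntermediateField ℚ ℂ) := by
    intro i j
    refine Fin.cases ?_ (fun p => ?_) i
    · apply Submodule.subset_span
      right
      show IsAlgebraic ℚ (Complex.exp (-(tw * ((∑ k, s k * lam j k : ℝ) : ℂ))))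
      rw [Complex.exp_neg]
      exact (h2 j).inv
    · show ((∑ k, (q k p : ℝ) * lam j k : ℝ) : ℂ) ∈ LK (⊥ : IntermediateField ℚ ℂ)
      rw [Complex.ofReal_sum]
      refine Submodule.sum_mem _ fun k _ => ?_
      have e3 : (((q k p : ℝ) * lam j k : ℝ) : ℂ) =
          (algebraMap ℚ (⊥ : IntermediateField ℚ ℂ) (q k p)) • (lam j k : ℂ) := by
        rw [Algebra.smul_def]
        push_cast
        congr 1
      rw [e3]
      refine Submodule.smul_mem _ _ (Submodule.subset_span ?_)
      right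
      exact h1 j k
  have hxa : ∀ j, ∑ i, x i * a i j = 0 := by
    intro j
    rw [Fin.sum_univ_succ]
    simp only [x, a, Fin.cons_zero, Fin.cons_succ, one_mul]
    have e4 : ∑ p : Fin r, tw * (((w p : W) : ℝ) : ℂ) * ((∑ k, (q k p : ℝ) * lam j k : ℝ) : ℂ) =
        tw * ((∑ k, s k * lam j k : ℝ) : ℂ) := by
      have e5 : (∑ k, s k * lam j k : ℝ) = ∑ p : Fin r, ((w p : W) : ℝ) *
          ∑ k, (q k p : ℝ) * lam j k := by
        simp only [Finset.mul_sum]
        rw [Finset.sum_comm]
        refine Finset.sum_congr rfl fun k _ => ?_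
        rw [hq k, Finset.sum_mul]
        refine Finset.sum_congr rfl fun p _ => ?_
        ring
      rw [e5, Complex.ofReal_sum, Finset.mul_sum]
      refine Finset.sum_congr rfl fun p _ => ?_
      rw [Complex.ofReal_mul]; ring
    rw [e4]; ring
  by_cases hcol : ∀ c : Fin l → (⊥ : IntermediateField ℚ ℂ),
      (∀ i, ∑ j, (c j : ℂ) * a i j = 0) → ∀ j, c j = 0
  · exfalso
    have h := hypP (⊥ : IntermediateField ℚ ℂ) (r + 1) l x a hx ha hxa hcol
    rw [Nat.add_sub_cancel] at h
    nlinarith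
  · push Not at hcol
    obtain ⟨c, hc, j0, hj0⟩ := hcol
    choose d hd using fun i => bot_rat (c i)
    let p0 : Fin r := ⟨0, hWpos⟩
    obtain ⟨D, hD, C, hC⟩ := clear_den d
    obtain ⟨D', hD', N, hN⟩ := clear_den fun k => q k p0
    refine ⟨C, N, ?_, ?_, ?_⟩
    · intro h
      apply hj0
      have h6 := hC j0
      rw [h] at h6
      have h7 : d j0 = 0 := by
        have : D * d j0 = 0 := by rw [← h6]; simp
        exact (mul_eq_zero.mp this).resolve_left hD
      apply Subtype.ext
      rw [hd j0, h7]; simp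
    · intro h
      -- the first coordinate vanishes on the span
      have h6 : ∀ k, q k p0 = 0 := by
        intro k
        have h7 := hN k
        rw [h] at h7
        have : D' * q k p0 = 0 := by rw [← h7]; simp
        exact (mul_eq_zero.mp this).resolve_left hD'
      have h8 : ∀ z : ℝ, ∀ hz : z ∈ W, w.repr ⟨z, hz⟩ p0 = 0 := by
        intro z hz
        refine Submodule.span_induction (p := fun z hz => w.repr ⟨z, hz⟩ p0 = 0) ?_ ?_ ?_ ?_ hz
        · rintro _ ⟨k, rfl⟩
          exact h6 k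
        · have : (⟨0, W.zero_mem⟩ : W) = 0 := rfl
          rw [this, map_zero]; rfl
        · intro z z' hz hz' e e'
          have : (⟨z + z', W.add_mem hz hz'⟩ : W) = ⟨z, hz⟩ + ⟨z', hz'⟩ := rfl
          rw [this, map_add, Finsupp.add_apply, e, e', add_zero]
        · intro t z hz e
          have : (⟨t • z, W.smul_mem t hz⟩ : W) = t • ⟨z, hz⟩ := rfl
          rw [this, map_smul, Finsupp.smul_apply, e, smul_zero]
      have h9 := h8 _ (w p0).2
      have h10 : (⟨((w p0 : W) : ℝ), (w p0).2⟩ : W) = w p0 := rfl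
      rw [h10, Basis.repr_self, Finsupp.single_eq_same] at h9
      exact one_ne_zero h9
    · have h6 := hc p0.succ
      have h7 : ∑ j, (d j : ℝ) * ∑ k, (q k p0 : ℝ) * lam j k = 0 := by
        have h8 : ((∑ j, (d j : ℝ) * ∑ k, (q k p0 : ℝ) * lam j k : ℝ) : ℂ) = 0 := by
          rw [← h6, Complex.ofReal_sum]
          refine Finset.sum_congr rfl fun j _ => ?_
          rw [hd j, Complex.ofReal_mul]
          simp only [a, Fin.cons_succ]
          push_cast
          rfl
        exact_mod_cast h8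
      have hC' : ∀ j, (C j : ℝ) = (D : ℝ) * (d j : ℝ) := by
        intro j; exact_mod_cast hC j
      have hN' : ∀ k, (N k : ℝ) = (D' : ℝ) * (q k p0 : ℝ) := by
        intro k; exact_mod_cast hN k
      have h9 : ∑ k, (N k : ℝ) * ∑ j, (C j : ℝ) * lam j k =
          (D : ℝ) * (D' : ℝ) * ∑ j, (d j : ℝ) * ∑ k, (q k p0 : ℝ) * lam j k := by
        simp only [Finset.mul_sum]
        rw [Finset.sum_comm]
        refine Finset.sum_congr rfl fun j _ => Finset.sum_congr rfl fun k _ => ?_
        rw [hC' j, hN' k]; ring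
      rw [h9, h7, mul_zero]

end Pool.Agent.U757.RT
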