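import Pool.Agent.U757.RT.Lie
import Pool.Agent.U757.RT.Kron
import Pool.Agent.U757.RT.Trans

/-! # The exponential of the Lie algebra is in the closure -/

set_option autoImplicit false
set_option linter.unusedSectionVars false

namespace Pool.Agent.U757.RT

open Module Topology

section points

variable (K : IntermediateField ℚ ℂ) [FiniteDimensional ℚ K] [IsGalois ℚ K]
  (X : Type) [AddCommGroup X] [Module.Free ℤ X] [Module.Finite ℤ X]
  [DistribMulAction (K ≃ₐ[ℚ] K) X]

theorem conjK_coe (x : K) : ((conjK K x : K) : ℂ) = starRingEnd ℂ (x : ℂ) :=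
  AlgEquiv.restrictNormal_commutes (Complex.conjAe.restrictScalars ℚ) K x

theorem conjK_mul : conjK K * conjK K = 1 := by
  ext x
  rw [AlgEquiv.mul_apply, conjK_coe, conjK_coe, Complex.conj_conj]
  rfl

/-- complex conjugation on `X` -/
noncomputable def cL : X →ₗ[ℤ] X :=
  (DistribSMul.toAddMonoidHom X (conjK K)).toIntLinearMap

theorem cL_apply (a : X) : cL K X a = conjK K • a := rfl

theorem cL_cL (a : X) : cL K X (cL K X a) = a := by
  rw [cL_apply, cL_apply, smul_smul, conjK_mul, one_smul]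

variable {X}

/-- a point as a homomorphism -/
def hm {u : X → ℂˣ} (hu : u ∈ complexPoints X) : X →+ Additive ℂˣ :=
  AddMonoidHom.mk' (fun a => Additive.ofMul (u a)) fun a b => by
    rw [hu a b]; rfl

theorem hom_zero {u : X → ℂˣ} (hu : u ∈ complexPoints X) : u 0 = 1 := (hm hu).map_zero

theorem hom_neg {u : X → ℂˣ} (hu : u ∈ complexPoints X) (a : X) : u (-a) = (u a)⁻¹ :=
  (hm hu).map_neg a

theorem hom_nsmul {u : X → ℂˣ} (hu : u ∈ complexPoints X) (n : ℕ) (a : X) :
    u (n • a) = u a ^ n := map_nsmul (hm hu) n a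

theorem hom_zsmul {u : X → ℂˣ} (hu : u ∈ complexPoints X) (n : ℤ) (a : X) :
    u (n • a) = u a ^ n := map_zsmul (hm hu) n a

theorem hom_sum {u : X → ℂˣ} (hu : u ∈ complexPoints X) {ι : Type} (s : Finset ι) (f : ι → X) :
    u (∑ i ∈ s, f i) = ∏ i ∈ s, u (f i) := map_sum (hm hu) f s

variable {K}

theorem rat_real {u : X → ℂˣ} (hu : u ∈ rationalPoints K X) : u ∈ realPoints K X := by
  refine ⟨hu.1, fun a => ?_⟩
  obtain ⟨x, hx, hg⟩ := hu.2 a
  rw [hg, ← hx, conjK_coe]

theorem rat_alg {u : X → ℂˣ} (hu : u ∈ rationalPoints K X) (a : X) :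
    IsAlgebraic ℚ (u a : ℂ) := by
  obtain ⟨x, hx, -⟩ := hu.2 a
  rw [← hx]
  exact (Algebra.IsAlgebraic.isAlgebraic (R := ℚ) x).algebraMap (A := ℂ)

/-- a rational point of a simple torus with a trivial value is torsion -/
theorem kill (hA : IsSimple K X) {u : X → ℂˣ} (hu : u ∈ rationalPoints K X) {a : X} (ha : a ≠ 0)
    (h : (u a : ℂ) = 1) : ∃ N : ℕ, 0 < N ∧ u ^ N = 1 := by
  let Y : AddSubgroup X :=
    { carrier := {a | ∀ g : K ≃ₐ[ℚ] K, u (g • a) = 1}
      add_mem' := by
        intro a b ha hb g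
        rw [smul_add, hu.1, ha, hb, one_mul]
      zero_mem' := by
        intro g
        rw [smul_zero, hom_zero hu.1]
      neg_mem' := by
        intro a ha g
        rw [smul_neg, hom_neg hu.1, ha, inv_one] }
  have hY : ∀ a, a ∈ Y ↔ ∀ g : K ≃ₐ[ℚ] K, u (g • a) = 1 := fun a => Iff.rfl
  have haY : a ∈ Y := by
    intro g
    obtain ⟨x, hx, hg⟩ := hu.2 a
    have hx1 : x = 1 := by
      apply Subtype.ext
      rw [hx, h]; rfl
    apply Units.ext
    rw [hg, hx1, map_one]; rfl
  have hstab : ∀ g : K ≃ₐ[ℚ] K, ∀ y ∈ Y, g • y ∈ Y := by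
    intro g y hy g'
    rw [smul_smul]
    exact hy _
  have hne : Y ≠ ⊥ := by
    intro h0
    rw [h0] at haY
    exact ha haY
  refine ⟨Y.index, Nat.pos_of_ne_zero (hA Y hstab hne), ?_⟩
  funext a'
  have h1 : Y.index • a' ∈ Y := AddSubgroup.nsmul_index_mem Y a'
  have h2 := h1 1
  rw [one_smul, hom_nsmul hu.1] at h2
  exact h2

variable {ι : Type} [Fintype ι] (b : Basis ι ℤ X)

/-- squares of real points are exponentials -/
theorem square {u : X → ℂˣ} (hu : u ∈ realPoints K X) :
    ∃ v : Lie b (cL K X), ex b (v : ι → ℂ) = u ^ 2 := by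
  -- logarithms
  let w : ι → ℂ := fun i => Complex.log (u (b i) : ℂ)
  have hw : ∀ a, Complex.exp (E b w a) = (u a : ℂ) := by
    intro a
    rw [E_expand, Complex.exp_sum]
    have h1 : u a = ∏ i, u (b i) ^ (b.repr a i) := by
      conv_lhs => rw [← b.sum_repr a]
      rw [hom_sum hu.1]
      exact Finset.prod_congr rfl fun i _ => hom_zsmul hu.1 _ _
    rw [h1, Units.coe_prod]
    refine Finset.prod_congr rfl fun i _ => ?_
    rw [Units.val_zpow_eq_zpow_val, Complex.exp_int_mul, Complex.exp_log (u (b i)).ne_zero]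
  refine ⟨⟨fun i => sym (cL K X) (E b w) (b i), sym_mem b _ (cL_cL K X) _⟩, ?_⟩
  funext a
  apply Units.ext
  rw [ex_val, E_self, sym_apply, Complex.exp_add, hw, Complex.exp_conj, hw, cL_apply, hu.2,
    Complex.conj_conj, Pi.pow_apply, Units.val_pow_eq_pow_val, sq]

/-- half of an element of the Lie algebra -/
theorem half (v : Lie b (cL K X)) : ex b ((1 / 2 : ℝ) • (v : ι → ℂ)) ^ 2 = ex b (v : ι → ℂ) := by
  rw [sq, ← ex_add, ← add_smul]
  norm_num

theorem ex_mem_real (v : Lie b (cL K X)) : ex b (v : ι → ℂ) ∈ realPoints K X := by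
  refine ⟨?_, ?_⟩
  · intro a a'
    apply Units.ext
    rw [Units.val_mul, ex_val, ex_val, ex_val, map_add, Complex.exp_add]
  · intro a
    rw [ex_val, ex_val, ← Complex.exp_conj]
    congr 1
    exact v.2 a

/-- sums of elements of the Lie algebra -/
theorem ex_sum {κ : Type} (s : Finset κ) (v : κ → (ι → ℂ)) (n : κ → ℤ) :
    ex b (∑ j ∈ s, n j • v j) = ∏ j ∈ s, ex b (v j) ^ n j := by
  let h : (ι → ℂ) →+ Additive (X → ℂˣ) :=
    AddMonoidHom.mk' (fun v => Additive.ofMul (ex b v)) fun v w => by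
      rw [ex_add]; rfl
  have h1 : h (∑ j ∈ s, n j • v j) = ∑ j ∈ s, n j • h (v j) := by
    rw [map_sum]
    exact Finset.sum_congr rfl fun j _ => map_zsmul h _ _
  exact h1

theorem dense_of_simple (hA : IsSimple K X) {L : Subgroup (X → ℂˣ)}
    (hL : L ≤ rationalPoints K X) : ZariskiDenseElements L := by
  rintro u hu ⟨a, ha, h⟩
  exact kill hA (hL hu) ha (by rw [h]; rfl)

/-- the exponential map of the Lie algebra has values in the closure -/
theorem main_lie {L : Subgroup (X → ℂˣ)} (hA : ZariskiDenseElements L)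
    (hL : L ≤ rationalPoints K X)
    (hrank : RankAtLeast L (realRank K X ^ 2 + realRank K X + 1)) (v : Lie b (cL K X)) :
    ex b (v : ι → ℂ) ∈ L.topologicalClosure := by
  classical
  revert v
  by_contra hne
  obtain ⟨f, hf0, hf⟩ := kronecker_hom (fun v : Lie b (cL K X) => ex b (v : ι → ℂ))
    (fun x y => ex_add b _ _) ((ex_cont b).comp continuous_subtype_val) L.topologicalClosure
    L.isClosed_topologicalClosure hne
  obtain ⟨α, χ, hrep⟩ := form_rep b (cL_cL K X) f L.topologicalClosure hf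
  obtain ⟨y, hyL, hy⟩ := hrank
  -- the lattice of real characters
  let e : Basis (Fin (realRank K X)) ℤ (realCharacters K X) :=
    Module.finBasis ℤ (realCharacters K X)
  have hR : ∀ i, b i + cL K X (b i) ∈ realCharacters K X := by
    intro i
    show conjK K • (b i + cL K X (b i)) = b i + cL K X (b i)
    rw [← cL_apply, map_add, cL_cL, add_comm]
  have heR : ∀ k, cL K X (e k : X) = (e k : X) := fun k => (e k).2
  let n : ι → Fin (realRank K X) → ℤ := fun i k => e.repr ⟨_, hR i⟩ k
  have hn : ∀ i, b i + cL K X (b i) = ∑ k, n i k • (e k : X) := by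
    intro i
    have := congrArg (fun z : realCharacters K X => (z : X)) (e.sum_repr ⟨_, hR i⟩)
    simp only [Submodule.coe_sum, Submodule.coe_smul] at this
    exact this.symm
  let lam : Lie b (cL K X) → Fin (realRank K X) → ℝ := fun v k => (E b (v : ι → ℂ) (e k : X)).re
  have hlam : ∀ (v : Lie b (cL K X)) k, E b (v : ι → ℂ) (e k : X) = (lam v k : ℂ) :=
    fun v k => Lie_real b v.2 (heR k)
  let s : Fin (realRank K X) → ℝ := fun k => ∑ i, α i * n i k
  have hs : ∀ v : Lie b (cL K X), ∑ i, α i * (2 * ((v : ι → ℂ) i).re) = ∑ k, s k * lam v k := by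
    intro v
    have h1 : ∀ i, 2 * ((v : ι → ℂ) i).re = ∑ k, (n i k : ℝ) * lam v k := by
      intro i
      have h2 := Lie_re b v.2 i
      rw [hn i, map_sum] at h2
      have h3 : ((2 * ((v : ι → ℂ) i).re : ℝ) : ℂ) = ((∑ k, (n i k : ℝ) * lam v k : ℝ) : ℂ) := by
        rw [← h2, Complex.ofReal_sum]
        refine Finset.sum_congr rfl fun k _ => ?_
        rw [map_zsmul, hlam, zsmul_eq_mul]
        push_cast; rfl
      exact_mod_cast h3
    calc ∑ i, α i * (2 * ((v : ι → ℂ) i).re) = ∑ i, α i * ∑ k, (n i k : ℝ) * lam v k :=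
          Finset.sum_congr rfl fun i _ => by rw [h1 i]
      _ = ∑ k, s k * lam v k := by
          simp only [Finset.mul_sum, s, Finset.sum_mul]
          rw [Finset.sum_comm]
          exact Finset.sum_congr rfl fun k _ => Finset.sum_congr rfl fun i _ => by ring
  have hrep' : ∀ v : Lie b (cL K X), ((f v : ℝ) : ℂ) * (4 * Real.pi * Complex.I) =
      2 * Real.pi * Complex.I * ((∑ k, s k * lam v k : ℝ) : ℂ) + E b (v : ι → ℂ) χ := by
    intro v
    rw [hrep v, ← hs v]
    congr 1
    push_cast
    rw [Finset.sum_mul, Finset.mul_sum]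
    exact Finset.sum_congr rfl fun i _ => by ring
  have hval : ∀ v : Lie b (cL K X), ex b (v : ι → ℂ) ∈ L.topologicalClosure →
      (ex b (v : ι → ℂ) χ : ℂ) =
        Complex.exp (2 * Real.pi * Complex.I * ((∑ k, (-s) k * lam v k : ℝ) : ℂ)) := by
    intro v hv
    obtain ⟨m, hm⟩ := hf v hv
    have h1 := hrep' v
    rw [hm] at h1
    have h2 : E b (v : ι → ℂ) χ = ((2 * m : ℤ) : ℂ) * (2 * Real.pi * Complex.I) +
        2 * Real.pi * Complex.I * ((∑ k, (-s) k * lam v k : ℝ) : ℂ) := by
      have h3 : (∑ k, (-s) k * lam v k : ℝ) = - ∑ k, s k * lam v k := by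
        rw [← Finset.sum_neg_distrib]
        exact Finset.sum_congr rfl fun k _ => by rw [Pi.neg_apply]; ring
      rw [h3]
      push_cast at h1 ⊢
      linear_combination -h1
    rw [ex_val, h2, Complex.exp_add, Complex.exp_int_mul_two_pi_mul_I, one_mul]
  -- the squares of the independent elements
  choose V hV using fun j => square b (rat_real (hL (hyL j)))
  have hVL : ∀ j, ex b (V j : ι → ℂ) ∈ L := fun j => by
    rw [hV j]; exact pow_mem (hyL j) 2
  have hVcl : ∀ j, ex b (V j : ι → ℂ) ∈ L.topologicalClosure := fun j =>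
    L.le_topologicalClosure (hVL j)
  have htor : ∀ c : Fin (realRank K X ^ 2 + realRank K X + 1) → ℤ,
      (∃ N : ℕ, 0 < N ∧ (∏ j, ex b (V j : ι → ℂ) ^ c j) ^ N = 1) → c = 0 := by
    rintro c ⟨N, hN, h⟩
    have h1 := hy (fun j => 2 * c j * N) (by
      rw [← h, ← Finset.prod_pow]
      refine Finset.prod_congr rfl fun j _ => ?_
      rw [hV j, ← zpow_natCast, ← zpow_natCast, ← zpow_mul, ← zpow_mul]
      congr 1
      push_cast
      ring)
    funext j
    have h2 := congrFun h1 j
    simp only [Pi.zero_apply] at h2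
    have h3 : (N : ℤ) ≠ 0 := by exact_mod_cast hN.ne'
    rcases mul_eq_zero.mp h2 with h4 | h4
    · rcases mul_eq_zero.mp h4 with h5 | h5
      · norm_num at h5
      · exact h5
    · exact absurd h4 h3
  by_cases hs0 : s = 0
  · have hval' : ∀ v : Lie b (cL K X), ex b (v : ι → ℂ) ∈ L.topologicalClosure →
        (ex b (v : ι → ℂ) χ : ℂ) = 1 := by
      intro v hv
      rw [hval v hv, hs0]
      simp
    by_cases hχ : χ = 0
    · apply hf0
      apply LinearMap.ext
      intro v
      have h1 := hrep' v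
      rw [hs0, hχ, map_zero, add_zero] at h1
      have h2 : ((f v : ℝ) : ℂ) * (4 * Real.pi * Complex.I) = 0 := by
        rw [h1]; simp
      have h3 : (4 * Real.pi * Complex.I : ℂ) ≠ 0 := by
        have : (Real.pi : ℂ) ≠ 0 := by exact_mod_cast Real.pi_ne_zero
        simp [this]
      have h4 := (mul_eq_zero.mp h2).resolve_right h3
      rw [LinearMap.zero_apply]
      exact_mod_cast h4
    · let j0 : Fin (realRank K X ^ 2 + realRank K X + 1) := ⟨0, by omega⟩
      obtain ⟨N, hN, h⟩ := hA _ (hVL j0) ⟨χ, hχ, Units.ext (hval' _ (hVcl j0))⟩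
      have h1 := htor (Pi.single j0 1) ⟨N, hN, by
        rw [Finset.prod_eq_single j0]
        · rw [Pi.single_eq_same, zpow_one, h]
        · intro j _ hj
          rw [Pi.single_eq_of_ne hj, zpow_zero]
        · intro h; exact absurd (Finset.mem_univ _) h⟩
      have h2 := congrFun h1 j0
      rw [Pi.single_eq_same] at h2
      exact one_ne_zero h2
  · obtain ⟨c, m, hc, hm, hrel⟩ := transc (realRank K X) (realRank K X ^ 2 + realRank K X + 1) (-s)
      (by
        intro h
        exact hs0 (neg_eq_zero.mp h)) (fun j => lam (V j))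
      (by
        intro j k
        rw [← hlam, ← ex_val]
        exact rat_alg (hL (hVL j)) _)
      (by
        intro j
        rw [← hval _ (hVcl j)]
        exact rat_alg (hL (hVL j)) _) (by omega)
    apply hc
    apply htor
    rw [← ex_sum]
    have ha : (∑ k, m k • (e k : X)) ≠ 0 := by
      intro h
      apply hm
      have h1 : ∑ k, m k • e k = 0 := by
        apply Subtype.ext
        simp only [Submodule.coe_sum, Submodule.coe_smul, Submodule.coe_zero]
        exact h
      funext k
      exact Fintype.linearIndependent_iff.mp e.linearIndependent m h1 k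
    refine hA (ex b (∑ j, c j • (V j : ι → ℂ))) ?_ ⟨_, ha, ?_⟩
    · rw [ex_sum]
      exact prod_mem fun j _ => zpow_mem (hVL j) _
    · apply Units.ext
      rw [ex_val]
      have h1 : E b (∑ j, c j • (V j : ι → ℂ)) (∑ k, m k • (e k : X)) =
          ((∑ k, (m k : ℝ) * ∑ j, (c j : ℝ) * lam (V j) k : ℝ) : ℂ) := by
        rw [map_sum, Complex.ofReal_sum]
        refine Finset.sum_congr rfl fun k _ => ?_
        rw [map_zsmul, zsmul_eq_mul, map_sum, LinearMap.sum_apply, Complex.ofReal_mul,
          Complex.ofReal_sum]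
        congr 1
        refine Finset.sum_congr rfl fun j _ => ?_
        rw [map_zsmul, LinearMap.smul_apply, hlam, zsmul_eq_mul]
        push_cast; rfl
      rw [h1, hrel]
      simp

end points

end Pool.Agent.U757.RT
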