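import Pool.Agent.U757.RT.Index

/-! # Discreteness of groups of small rank if the real rank is at most one -/

set_option autoImplicit false
set_option linter.unusedSectionVars false

namespace Pool.Agent.U757.RT

open Module Topology

section points

variable {K : IntermediateField ℚ ℂ} [FiniteDimensional ℚ K] [IsGalois ℚ K]
  {X : Type} [AddCommGroup X] [Module.Free ℤ X] [Module.Finite ℤ X]
  [DistribMulAction (K ≃ₐ[ℚ] K) X]

theorem zpow_tors {G : Type} [Group G] {u : G} (hu : ∀ N : ℕ, 0 < N → u ^ N ≠ 1) {n : ℤ}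
    (h : u ^ n = 1) : n = 0 := by
  by_contra hn
  have h1 : u ^ n.natAbs = 1 := by
    rcases Int.natAbs_eq n with h2 | h2
    · rw [h2, zpow_natCast] at h; exact h
    · rw [h2, zpow_neg, zpow_natCast, inv_eq_one] at h; exact h
  exact hu _ (Int.natAbs_pos.mpr hn) h1

theorem discrete_of_small {L : Subgroup (X → ℂˣ)} (hA : ZariskiDenseElements L)
    (hL : L ≤ rationalPoints K X) (hfg : L.FG) (hr : realRank K X ≤ 1)
    (hrank : ¬ RankAtLeast L (realRank K X + 1)) : DiscreteTopology L := by
  classical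
  have hfin := tors_finite L hfg
  by_cases hall : ∀ g ∈ L, ∃ N : ℕ, 0 < N ∧ g ^ N = 1
  · have h1 : (L : Set (X → ℂˣ)).Finite := hfin.subset fun g hg => ⟨hg, hall g hg⟩
    have h2 : Finite L := h1
    infer_instance
  push Not at hall
  obtain ⟨u, huL, hu⟩ := hall
  have hr1 : realRank K X = 1 := by
    rcases Nat.lt_or_ge (realRank K X) 1 with h | h
    · exfalso
      apply hrank
      have h0 : realRank K X + 1 = 1 := by omega
      rw [h0]
      refine ⟨fun _ => u, fun _ => huL, fun e he => ?_⟩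
      rw [Fin.prod_univ_one] at he
      funext i
      have := zpow_tors hu he
      rw [Fin.eq_zero i]
      exact this
    · omega
  have hpos : 0 < finrank ℤ (realCharacters K X) := by
    change 0 < realRank K X
    omega
  let z0 : realCharacters K X := Module.finBasis ℤ (realCharacters K X) ⟨0, hpos⟩
  have hz0 : z0 ≠ 0 := (Module.finBasis ℤ (realCharacters K X)).ne_zero ⟨0, hpos⟩
  let x0 : X := z0
  have hx0 : x0 ≠ 0 := fun h => hz0 (Subtype.ext h)
  have hx0c : conjK K • x0 = x0 := z0.2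
  let lm : (X → ℂˣ) → ℝ := fun g => Real.log ‖(g x0 : ℂ)‖
  have hlm_mul : ∀ g h : X → ℂˣ, lm (g * h) = lm g + lm h := by
    intro g h
    simp only [lm]
    rw [Pi.mul_apply, Units.val_mul, norm_mul, Real.log_mul]
    · exact norm_ne_zero_iff.mpr (g x0).ne_zero
    · exact norm_ne_zero_iff.mpr (h x0).ne_zero
  have hlm_zpow : ∀ (g : X → ℂˣ) (n : ℤ), lm (g ^ n) = n * lm g := by
    intro g n
    simp only [lm]
    rw [Pi.pow_apply, Units.val_zpow_eq_zpow_val, norm_zpow, Real.log_zpow]
  have hlm_inv : ∀ g : X → ℂˣ, lm g⁻¹ = - lm g := by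
    intro g
    have := hlm_zpow g (-1)
    rw [zpow_neg_one] at this
    rw [this]; push_cast; ring
  have hlm_one : lm 1 = 0 := by
    have := hlm_zpow 1 0
    rw [zpow_zero] at this
    rw [this]; simp
  have hlm0 : ∀ g ∈ L, lm g = 0 → ∃ N : ℕ, 0 < N ∧ g ^ N = 1 := by
    intro g hg h0
    have h1 := (rat_real (hL hg)).2 x0
    rw [hx0c] at h1
    have h2 : (g x0 : ℂ) = (((g x0 : ℂ).re : ℝ) : ℂ) := (Complex.conj_eq_iff_re.mp h1.symm).symm
    have h3 : ‖(g x0 : ℂ)‖ = 1 := by
      have hpos : 0 < ‖(g x0 : ℂ)‖ := norm_pos_iff.mpr (g x0).ne_zero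
      exact Real.eq_one_of_pos_of_log_eq_zero hpos h0
    have h4 : (g x0 : ℂ) ^ 2 = 1 := by
      rw [h2, Complex.norm_real, Real.norm_eq_abs] at h3
      rw [h2, ← Complex.ofReal_pow, ← sq_abs, h3]
      norm_num
    obtain ⟨N, hN, h⟩ := hA (g ^ 2) (pow_mem hg 2) ⟨x0, hx0, by
      apply Units.ext
      rw [Pi.pow_apply, Units.val_pow_eq_pow_val, h4]; rfl⟩
    exact ⟨2 * N, by omega, by rw [pow_mul]; exact h⟩
  have hlu : lm u ≠ 0 := by
    intro h
    obtain ⟨N, hN, h'⟩ := hlm0 u huL h
    exact hu N hN h'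
  have hrel : ∀ g ∈ L, ∃ a m : ℤ, a ≠ 0 ∧ a * lm g = m * lm u := by
    intro g hg
    have h1 : ¬ RankAtLeast L 2 := by
      rw [hr1] at hrank; exact hrank
    by_contra hcon
    apply h1
    refine ⟨![u, g], ?_, fun e he => ?_⟩
    · intro i
      fin_cases i
      · exact huL
      · exact hg
    · rw [Fin.prod_univ_two] at he
      simp only [Matrix.cons_val_zero, Matrix.cons_val_one] at he
      have h2 : e 1 = 0 := by
        by_contra h3
        apply hcon
        refine ⟨e 1, - e 0, h3, ?_⟩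
        have h4 := congrArg lm he
        rw [hlm_mul, hlm_zpow, hlm_zpow, hlm_one] at h4
        push_cast
        linarith
      rw [h2, zpow_zero, mul_one] at he
      have h3 := zpow_tors hu he
      funext i
      fin_cases i
      · exact h3
      · exact h2
  obtain ⟨S, hS⟩ := hfg
  have hSL : ∀ g ∈ S, g ∈ L := fun g hg => by
    rw [← hS]; exact Subgroup.subset_closure hg
  choose! a m ha ham using hrel
  let N : ℤ := ∏ g ∈ S, a g
  have hN : N ≠ 0 := Finset.prod_ne_zero_iff.mpr fun g hg => ha g (hSL g hg)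
  have hNg : ∀ g ∈ L, ∃ k : ℤ, N * lm g = k * lm u := by
    intro g hg
    rw [← hS] at hg
    induction hg using Subgroup.closure_induction with
    | mem g hg =>
      refine ⟨(∏ h ∈ S.erase g, a h) * m g, ?_⟩
      have h1 : N = (∏ h ∈ S.erase g, a h) * a g := (Finset.prod_erase_mul _ _ hg).symm
      rw [h1]
      push_cast
      rw [mul_assoc, ham g (hSL g hg), mul_assoc]
    | one => exact ⟨0, by rw [hlm_one]; simp⟩
    | mul x y _ _ hx hy =>
      obtain ⟨k, hk⟩ := hx
      obtain ⟨k', hk'⟩ := hy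
      exact ⟨k + k', by rw [hlm_mul, mul_add, hk, hk']; push_cast; ring⟩
    | inv x _ hx =>
      obtain ⟨k, hk⟩ := hx
      exact ⟨-k, by rw [hlm_inv, mul_neg, hk]; push_cast; ring⟩
  -- the open set
  have hcont : Continuous fun g : L => |(N : ℝ) * lm (g : X → ℂˣ)| := by
    refine (continuous_const.mul (Continuous.log ?_ ?_)).abs
    · exact (continuous_val x0).norm.comp continuous_subtype_val
    · intro g
      exact norm_ne_zero_iff.mpr ((g : X → ℂˣ) x0).ne_zero
  let U : Set L := {g : L | |(N : ℝ) * lm (g : X → ℂˣ)| < |lm u|}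
  have hUo : IsOpen U := isOpen_lt hcont continuous_const
  have hUt : ∀ g ∈ U, ∃ N : ℕ, 0 < N ∧ (g : X → ℂˣ) ^ N = 1 := by
    intro g hg
    apply hlm0 _ g.2
    obtain ⟨k, hk⟩ := hNg _ g.2
    have h1 : |(N : ℝ) * lm (g : X → ℂˣ)| < |lm u| := hg
    rw [hk, abs_mul] at h1
    have h2 : |(k : ℝ)| < 1 := by
      by_contra h3
      push Not at h3
      have : 1 * |lm u| ≤ |(k : ℝ)| * |lm u| := mul_le_mul_of_nonneg_right h3 (abs_nonneg _)
      linarith
    have h3 : k = 0 := by
      have : |k| < 1 := by exact_mod_cast h2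
      exact Int.abs_lt_one_iff.mp this
    rw [h3] at hk
    have h4 : (N : ℝ) * lm (g : X → ℂˣ) = 0 := by rw [hk]; simp
    exact (mul_eq_zero.mp h4).resolve_left (by exact_mod_cast hN)
  have hUfin : U.Finite := by
    refine Set.Finite.of_finite_image (f := fun g : L => (g : X → ℂˣ)) (hfin.subset ?_)
      Subtype.val_injective.injOn
    rintro _ ⟨g, hg, rfl⟩
    exact ⟨g.2, hUt g hg⟩
  have h1U : (1 : L) ∈ U := by
    show |(N : ℝ) * lm ((1 : L) : X → ℂˣ)| < |lm u|
    rw [Subgroup.coe_one, hlm_one, mul_zero, abs_zero]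
    exact abs_pos.mpr hlu
  have hone : IsOpen ({1} : Set L) := by
    have h5 : ({1} : Set L) = U \ (U \ {1}) := by
      ext g
      simp only [Set.mem_singleton_iff, Set.mem_sdiff, not_and, not_not]
      constructor
      · rintro rfl
        exact ⟨h1U, fun _ => rfl⟩
      · rintro ⟨h, h'⟩
        exact h' h
    rw [h5]
    exact hUo.sdiff (hUfin.subset Set.sdiff_subset).isClosed
  exact discreteTopology_of_isOpen_singleton_one hone

end points

end Pool.Agent.U757.RT
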