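import Pool.Agent.U757.RT.Trans

/-! # Linear algebra over `ℚ` and the linear subgroup theorem without algebraic directions -/

set_option autoImplicit false

namespace Pool.Agent.U757.RT

open Module Finset

/-- **Application of the linear subgroup theorem**: a matrix of logarithms of algebraic numbers with
`b` rows and `l` columns without rational zeros has rank at least `b l / (b + l)`. -/
theorem rank_bound {b l ρ : ℕ} (u : Fin b → Fin l → ℂ) (x : Fin ρ → Fin b → ℂ)
    (y : Fin ρ → Fin l → ℂ) (hu : ∀ j p, IsAlgebraic ℚ (Complex.exp (u j p)))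
    (huv : ∀ j p, u j p = ∑ q, x q j * y q p)
    (hgen : ∀ (m : Fin b → ℤ) (s : Fin l → ℤ), m ≠ 0 →
      (∃ n : ℤ, ∑ j, ∑ p, (m j : ℂ) * (s p : ℂ) * u j p = n * (2 * Real.pi * Complex.I)) → s = 0)
    (hl : 0 < l) : b * l ≤ ρ * (l + b) := by
  classical
  by_contra hcon
  push Not at hcon
  set t := ρ + 1 with ht
  have hcount : (((l + b) * t) + 1) * (ρ + 0) + 1 ≤
      (∅ : Finset (Fin 0)).card * ((l + b) * t) + b * (l * t) := by
    rw [Finset.card_empty, zero_mul, zero_add, add_zero]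
    have h1 : ρ * (l + b) + 1 ≤ b * l := hcon
    have h2 : (ρ * (l + b) + 1) * t ≤ b * l * t := Nat.mul_le_mul_right _ h1
    nlinarith
  obtain ⟨Af, Rm, W0, G0, -, hne, -, hG0, hineq⟩ :=
    Pool.Agent.H335R2.Obs.obstruction_of Pool.Agent.H301R2.SSE.zeg (w := 0) (b := b) (l := l)
      (r := ρ) ∅
      (fun i => i.elim0) (fun i => i.elim0) u x y (fun i => i.elim0) (fun i => i.elim0) hu
      (fun j p => by rw [huv]; simp) ((l + b) * t) (l * t) (b * t) (by ring) hcount
  have hAf : Af = ⊥ := by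
    rw [Submodule.eq_bot_iff]
    intro a _
    funext i
    exact i.elim0
  have hRm : Rm ≠ ⊥ := fun h => hne ⟨hAf, h⟩
  obtain ⟨⟨m, hmR⟩, hm'⟩ := AddSubgroup.ne_bot_iff_exists_ne_zero.mp hRm
  have hm0 : m ≠ 0 := fun h => hm' (Subtype.ext h)
  have hG0' : G0 = ⊥ := by
    rw [eq_bot_iff]
    intro s hs
    have h1 := ((hG0 s).mp hs).2 m hmR
    exact hgen m s hm0 h1
  have hf1 : finrank ℤ G0 = 0 := by
    rw [hG0']
    exact finrank_bot ℤ (Fin l → ℤ) 
  have hf2 : finrank ℤ Rm ≤ b := by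
    have h := Submodule.finrank_le (AddSubgroup.toIntSubmodule Rm)
    rw [Module.finrank_fintype_fun_eq_card, Fintype.card_fin] at h
    exact h
  have hf3 : finrank ℂ Af = 0 := by
    rw [hAf]; exact finrank_bot ℂ _
  rw [hf1, hf3] at hineq
  have ht0 : 0 < t := by omega
  rcases hineq with h | h
  · have h2 : finrank ℤ Rm * (l * t) ≤ b * (l * t) := Nat.mul_le_mul_right _ hf2
    have h3 : (l - 0) * (b * t) = b * (l * t) := by rw [Nat.sub_zero]; ring
    omega
  · have h2 := h.2.2
    omega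

end Pool.Agent.U757.RT
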