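import Pool.Agent.U757.RT.Stm

/-! # The Lie algebra of a real torus and integral linear forms on it -/

set_option autoImplicit false
set_option linter.unusedSectionVars false

namespace Pool.Agent.U757.RT

open Module Topology

section lie

variable {X ι : Type} [AddCommGroup X] [Fintype ι] (b : Basis ι ℤ X) (c : X →ₗ[ℤ] X)

/-- the additive extension -/
noncomputable def E : (ι → ℂ) →ₗ[ℝ] (X →ₗ[ℤ] ℂ) := (b.constr ℝ).toLinearMap

theorem E_basis (v : ι → ℂ) (i : ι) : E b v (b i) = v i := b.constr_basis ℝ v i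

theorem E_self (W : X →ₗ[ℤ] ℂ) : E b (fun i => W (b i)) = W := b.constr_self ℝ W

theorem E_expand (v : ι → ℂ) (a : X) : E b v a = ∑ i, (b.repr a i : ℂ) * v i := by
  have h := b.constr_apply_fintype ℝ v a
  change (b.constr ℝ v) a = _
  rw [h]
  refine Finset.sum_congr rfl fun i _ => ?_
  rw [Basis.equivFun_apply, zsmul_eq_mul]

theorem E_add (v w : ι → ℂ) (a : X) : E b (v + w) a = E b v a + E b w a := by
  rw [map_add]; rfl

theorem E_smul (t : ℝ) (v : ι → ℂ) (a : X) : E b (t • v) a = (t : ℂ) * E b v a := by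
  rw [map_smul]
  change t • (E b v a) = _
  rw [Complex.real_smul]

theorem E_cont (a : X) : Continuous fun v : ι → ℂ => E b v a := by
  simp only [E_expand]
  exact continuous_finsetSum _ fun i _ => continuous_const.mul (continuous_apply i)

/-- complex conjugation as a linear map over `ℤ` -/
noncomputable def cjL : ℂ →ₗ[ℤ] ℂ := ((starRingEnd ℂ : ℂ →+* ℂ).toAddMonoidHom).toIntLinearMap

theorem cjL_apply (z : ℂ) : cjL z = starRingEnd ℂ z := rfl

/-- the Lie algebra -/
def Lie : Submodule ℝ (ι → ℂ) where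
  carrier := {v | ∀ a, E b v (c a) = starRingEnd ℂ (E b v a)}
  add_mem' := by
    intro v w hv hw a
    rw [E_add, E_add, hv, hw, map_add]
  zero_mem' := by
    intro a
    simp
  smul_mem' := by
    intro t v hv a
    rw [E_smul, E_smul, hv, map_mul, Complex.conj_ofReal]

/-- the exponential map -/
noncomputable def ex (v : ι → ℂ) : X → ℂˣ :=
  fun a => Units.mk0 (Complex.exp (E b v a)) (Complex.exp_ne_zero _)

theorem ex_val (v : ι → ℂ) (a : X) : (ex b v a : ℂ) = Complex.exp (E b v a) := rfl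

theorem ex_add (v w : ι → ℂ) : ex b (v + w) = ex b v * ex b w := by
  funext a
  apply Units.ext
  rw [Pi.mul_apply, Units.val_mul, ex_val, ex_val, ex_val, E_add, Complex.exp_add]

theorem ex_cont : Continuous (ex b : (ι → ℂ) → X → ℂˣ) := by
  refine continuous_pi fun a => ?_
  rw [Units.continuous_iff]
  constructor
  · exact Complex.continuous_exp.comp (E_cont b a)
  · have : (fun v : ι → ℂ => ((ex b v a)⁻¹ : ℂˣ).val) = fun v => Complex.exp (-(E b v a)) := by
      funext v
      rw [Units.val_inv_eq_inv_val, ex_val, Complex.exp_neg]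
    change Continuous (fun v : ι → ℂ => ((ex b v a)⁻¹ : ℂˣ).val)
    rw [this]
    exact Complex.continuous_exp.comp (E_cont b a).neg

/-- symmetrisation -/
noncomputable def sym (W : X →ₗ[ℤ] ℂ) : X →ₗ[ℤ] ℂ := W + cjL ∘ₗ W ∘ₗ c

theorem sym_apply (W : X →ₗ[ℤ] ℂ) (a : X) : sym c W a = W a + starRingEnd ℂ (W (c a)) := rfl

theorem sym_mem (hc : ∀ a, c (c a) = a) (W : X →ₗ[ℤ] ℂ) :
    (fun i => sym c W (b i)) ∈ Lie b c := by
  intro a
  rw [E_self, sym_apply, sym_apply, hc, map_add, Complex.conj_conj, add_comm]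

variable {c} in
theorem Lie_re {v : ι → ℂ} (hv : v ∈ Lie b c) (i : ι) :
    E b v (b i + c (b i)) = ((2 * (v i).re : ℝ) : ℂ) := by
  rw [map_add, hv, E_basis, Complex.add_conj]

variable {c} in
/-- on real characters the values are real -/
theorem Lie_real {v : ι → ℂ} (hv : v ∈ Lie b c) {a : X} (ha : c a = a) :
    E b v a = (((E b v a).re : ℝ) : ℂ) := by
  have h := hv a
  rw [ha] at h
  exact (Complex.conj_eq_iff_re.mp h.symm).symm

variable {c} in
theorem form_rep (hc : ∀ a, c (c a) = a) (f : Lie b c →ₗ[ℝ] ℝ) (H : Subgroup (X → ℂˣ))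
    (hf : ∀ v : Lie b c, ex b (v : ι → ℂ) ∈ H → ∃ n : ℤ, f v = n) :
    ∃ (α : ι → ℝ) (χ : X), ∀ v : Lie b c, ((f v : ℝ) : ℂ) * (4 * Real.pi * Complex.I) =
      ((∑ i, α i * ((v : ι → ℂ) i).re : ℝ) : ℂ) * (4 * Real.pi * Complex.I) +
        E b (v : ι → ℂ) χ := by
  classical
  obtain ⟨F, hF⟩ := LinearMap.exists_extend f
  have hF' : ∀ v : Lie b c, f v = F (v : ι → ℂ) := fun v => by rw [← hF]; rfl
  set α : ι → ℝ := fun i => F (Pi.single i 1) with hα
  set β : ι → ℝ := fun i => F (Pi.single i Complex.I) with hβ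
  have hFe : ∀ v : ι → ℂ, F v = ∑ i, (α i * (v i).re + β i * (v i).im) := by
    intro v
    have e1 : v = ∑ i, ((v i).re • (Pi.single i (1 : ℂ) : ι → ℂ) +
        (v i).im • (Pi.single i Complex.I : ι → ℂ)) := by
      funext j
      rw [Finset.sum_apply, Finset.sum_eq_single j]
      · simp only [Pi.add_apply, Pi.smul_apply, Pi.single_eq_same, Complex.real_smul, mul_one]
        exact (Complex.re_add_im _).symm
      · intro i _ hij
        simp [Pi.single_eq_of_ne (Ne.symm hij)]
      · intro h; exact absurd (Finset.mem_univ _) h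
    conv_lhs => rw [e1]
    rw [map_sum]
    refine Finset.sum_congr rfl fun i _ => ?_
    rw [map_add, map_smul, map_smul, smul_eq_mul, smul_eq_mul, mul_comm, mul_comm (v i).im]
  -- the elements of the kernel
  let N : ι → (X →ₗ[ℤ] ℤ) := fun j => b.coord j - b.coord j ∘ₗ c
  have hN : ∀ j a, N j a = b.repr a j - b.repr (c a) j := fun j a => rfl
  have hNc : ∀ j a, N j (c a) = - N j a := by
    intro j a
    rw [hN, hN, hc]; ring
  let T : ℤ →ₗ[ℤ] ℂ := LinearMap.toSpanSingleton ℤ ℂ (2 * Real.pi * Complex.I)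
  have hT : ∀ n : ℤ, T n = n * (2 * Real.pi * Complex.I) := by
    intro n
    rw [LinearMap.toSpanSingleton_apply, zsmul_eq_mul]
  let V : ι → (ι → ℂ) := fun j i => T (N j (b i))
  have hEV : ∀ j a, E b (V j) a = (N j a : ℂ) * (2 * Real.pi * Complex.I) := by
    intro j a
    have := E_self b (T ∘ₗ N j)
    change (E b (V j)) = _ at this
    rw [this, LinearMap.comp_apply, hT]
  have hVL : ∀ j, V j ∈ Lie b c := by
    intro j a
    rw [hEV, hEV, hNc, map_mul, map_mul, map_mul, Complex.conj_I, Complex.conj_ofReal,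
      map_intCast, map_ofNat]
    push_cast
    ring
  have hVH : ∀ j, ex b (V j) ∈ H := by
    intro j
    have : ex b (V j) = 1 := by
      funext a
      apply Units.ext
      rw [ex_val, hEV, Complex.exp_int_mul_two_pi_mul_I]
      rfl
    rw [this]
    exact one_mem _
  choose k hk using fun j => hf ⟨V j, hVL j⟩ (hVH j)
  have hk' : ∀ j, (k j : ℝ) = ∑ i, β i * (2 * Real.pi * (N j (b i) : ℝ)) := by
    intro j
    rw [← hk j, hF', hFe]
    refine Finset.sum_congr rfl fun i _ => ?_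
    have e2 : V j i = ((2 * Real.pi * (N j (b i) : ℝ) : ℝ) : ℂ) * Complex.I := by
      change T (N j (b i)) = _
      rw [hT]
      push_cast; ring
    rw [show ((⟨V j, hVL j⟩ : Lie b c) : ι → ℂ) i = V j i from rfl, e2]
    simp
  refine ⟨α, ∑ j, k j • b j, fun v => ?_⟩
  have h1 : E b (v : ι → ℂ) (∑ j, k j • b j) = ∑ j, (k j : ℂ) * (v : ι → ℂ) j := by
    rw [map_sum]
    refine Finset.sum_congr rfl fun j _ => ?_
    rw [map_zsmul, E_basis, zsmul_eq_mul]
  have h2 : ∀ i, ∑ j, ((N j (b i) : ℤ) : ℂ) * (v : ι → ℂ) j =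
      ((2 * ((v : ι → ℂ) i).im : ℝ) : ℂ) * Complex.I := by
    intro i
    have e3 : ∑ j, ((N j (b i) : ℤ) : ℂ) * (v : ι → ℂ) j =
        E b (v : ι → ℂ) (b i) - E b (v : ι → ℂ) (c (b i)) := by
      rw [E_expand, E_expand, ← Finset.sum_sub_distrib]
      refine Finset.sum_congr rfl fun j _ => ?_
      rw [hN]; push_cast; ring
    rw [e3, v.2, E_basis, Complex.sub_conj]
  have h3 : E b (v : ι → ℂ) (∑ j, k j • b j) =
      ((∑ i, β i * ((v : ι → ℂ) i).im : ℝ) : ℂ) * (4 * Real.pi * Complex.I) := by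
    rw [h1]
    have e4 : ∀ j, ((k j : ℤ) : ℂ) = ∑ i, (β i : ℂ) * (2 * Real.pi * ((N j (b i) : ℤ) : ℂ)) := by
      intro j
      have h5 : ((k j : ℝ) : ℂ) = ((∑ i, β i * (2 * Real.pi * (N j (b i) : ℝ)) : ℝ) : ℂ) := by
        rw [hk' j]
      push_cast at h5
      exact h5
    calc ∑ j, ((k j : ℤ) : ℂ) * (v : ι → ℂ) j
        = ∑ i, (β i : ℂ) * (2 * Real.pi) * ∑ j, ((N j (b i) : ℤ) : ℂ) * (v : ι → ℂ) j := by
          simp only [Finset.mul_sum]
          rw [Finset.sum_comm]
          refine Finset.sum_congr rfl fun j _ => ?_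
          rw [e4 j, Finset.sum_mul]
          refine Finset.sum_congr rfl fun i _ => ?_
          ring
      _ = _ := by
          rw [Complex.ofReal_sum, Finset.sum_mul]
          refine Finset.sum_congr rfl fun i _ => ?_
          rw [h2 i]; push_cast; ring
  rw [h3, hF', hFe, Finset.sum_add_distrib]
  push_cast
  ring

end lie

end Pool.Agent.U757.RT
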