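import Mathlib

/-!
# Tori over `ℚ` and their groups of points

A torus `A` over `ℚ` split by a finite Galois extension `K` of `ℚ` in `ℂ` is given by its group `X`
of characters, a free abelian group of finite rank with an action of `Gal(K / ℚ)`.
-/

set_option autoImplicit false

namespace Pool.Agent.U757.RT

open Module

/-- Complex conjugation on `K ⊆ ℂ`, a normal extension of `ℚ`. -/
noncomputable def conjK (K : IntermediateField ℚ ℂ) [Normal ℚ K] : K ≃ₐ[ℚ] K :=
  (Complex.conjAe.restrictScalars ℚ).restrictNormal K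

/-- The group `A(ℂ) = Hom(X, ℂˣ)`, a subgroup of the topological group of all functions `X → ℂˣ`
(pointwise multiplication and pointwise convergence). -/
def complexPoints (X : Type) [AddCommGroup X] : Subgroup (X → ℂˣ) where
  carrier := {u | ∀ a b, u (a + b) = u a * u b}
  mul_mem' := by
    intro u v hu hv a b
    rw [Pi.mul_apply, Pi.mul_apply, Pi.mul_apply, hu, hv]
    exact mul_mul_mul_comm _ _ _ _
  one_mem' := by
    intro a b
    simp
  inv_mem' := by
    intro u hu a b
    rw [Pi.inv_apply, Pi.inv_apply, Pi.inv_apply, hu a b, mul_inv]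

/-- The group `A(ℝ)`: the points `u : X → ℂˣ` for which `u (c χ)` is the complex conjugate of
`u χ` for all characters `χ`, where `c` is the complex conjugation. -/
def realPoints (K : IntermediateField ℚ ℂ) [Normal ℚ K] (X : Type) [AddCommGroup X]
    [DistribMulAction (K ≃ₐ[ℚ] K) X] : Subgroup (X → ℂˣ) where
  carrier := {u | u ∈ complexPoints X ∧ ∀ a, (u (conjK K • a) : ℂ) = starRingEnd ℂ (u a : ℂ)}
  mul_mem' := by
    rintro u v ⟨hu, hu'⟩ ⟨hv, hv'⟩
    refine ⟨mul_mem hu hv, fun a => ?_⟩
    rw [Pi.mul_apply, Pi.mul_apply, Units.val_mul, Units.val_mul, hu', hv', map_mul]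
  one_mem' := ⟨one_mem _, fun a => by simp⟩
  inv_mem' := by
    rintro u ⟨hu, hu'⟩
    refine ⟨inv_mem hu, fun a => ?_⟩
    rw [Pi.inv_apply, Pi.inv_apply, Units.val_inv_eq_inv_val, Units.val_inv_eq_inv_val, hu',
      map_inv₀]

/-- The group `A(ℚ)`: the points `u : X → Kˣ` with `u (g χ) = g (u χ)` for all `g` in
`Gal(K / ℚ)` and all characters `χ`. -/
def rationalPoints (K : IntermediateField ℚ ℂ) (X : Type) [AddCommGroup X]
    [DistribMulAction (K ≃ₐ[ℚ] K) X] : Subgroup (X → ℂˣ) where
  carrier := {u | u ∈ complexPoints X ∧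
    ∀ a, ∃ x : K, (x : ℂ) = u a ∧ ∀ g : K ≃ₐ[ℚ] K, (u (g • a) : ℂ) = g x}
  mul_mem' := by
    rintro u v ⟨hu, hu'⟩ ⟨hv, hv'⟩
    refine ⟨mul_mem hu hv, fun a => ?_⟩
    obtain ⟨x, hx, hgx⟩ := hu' a
    obtain ⟨y, hy, hgy⟩ := hv' a
    refine ⟨x * y, ?_, fun g => ?_⟩
    · rw [Pi.mul_apply, Units.val_mul, ← hx, ← hy]; rfl
    · rw [Pi.mul_apply, Units.val_mul, hgx, hgy, map_mul]; rfl
  one_mem' := ⟨one_mem _, fun a => ⟨1, by simp, fun g => by simp⟩⟩
  inv_mem' := by
    rintro u ⟨hu, hu'⟩
    refine ⟨inv_mem hu, fun a => ?_⟩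
    obtain ⟨x, hx, hgx⟩ := hu' a
    refine ⟨x⁻¹, ?_, fun g => ?_⟩
    · rw [Pi.inv_apply, Units.val_inv_eq_inv_val, ← hx]
      simp
    · rw [Pi.inv_apply, Units.val_inv_eq_inv_val, hgx, map_inv₀]
      simp

/-- `A` is simple over `ℚ`: the only connected algebraic subgroups defined over `ℚ` are `0` and
`A`, that is, every nonzero subgroup of `X` which is stable under the Galois group has finite
index. -/
def IsSimple (K : IntermediateField ℚ ℂ) (X : Type) [AddCommGroup X]
    [DistribMulAction (K ≃ₐ[ℚ] K) X] : Prop :=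
  ∀ Y : AddSubgroup X, (∀ g : K ≃ₐ[ℚ] K, ∀ y ∈ Y, g • y ∈ Y) → Y ≠ ⊥ → Y.index ≠ 0

/-- The group of the characters defined over `ℝ`. -/
def realCharacters (K : IntermediateField ℚ ℂ) [Normal ℚ K] (X : Type) [AddCommGroup X]
    [DistribMulAction (K ≃ₐ[ℚ] K) X] : Submodule ℤ X where
  carrier := {a | conjK K • a = a}
  add_mem' := by
    intro a b ha hb
    show conjK K • (a + b) = a + b
    rw [smul_add, ha, hb]
  zero_mem' := smul_zero _
  smul_mem' := by
    intro n a ha
    have h := map_zsmul (DistribSMul.toAddMonoidHom X (conjK K)) n a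
    change conjK K • (n • a) = n • (conjK K • a) at h
    show conjK K • (n • a) = n • a
    rw [h, ha]

/-- The real rank of `A`, that is, the rank of the group of characters defined over `ℝ`, the
dimension of a maximal `ℝ`-split subtorus. -/
noncomputable def realRank (K : IntermediateField ℚ ℂ) [Normal ℚ K] (X : Type) [AddCommGroup X]
    [DistribMulAction (K ≃ₐ[ℚ] K) X] : ℕ :=
  finrank ℤ (realCharacters K X)

/-- The rank of `L` is at least `s`: it contains `s` multiplicatively independent elements. -/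
def RankAtLeast {G : Type} [CommGroup G] (L : Subgroup G) (s : ℕ) : Prop :=
  ∃ y : Fin s → G, (∀ i, y i ∈ L) ∧ ∀ e : Fin s → ℤ, ∏ i, y i ^ e i = 1 → e = 0

/-- Every element of infinite order of `L` generates a Zariski dense subgroup of `A`: an element of
`L` at which a character `a ≠ 0` has the value `1` has finite order. -/
def ZariskiDenseElements {X : Type} [AddCommGroup X] (L : Subgroup (X → ℂˣ)) : Prop :=
  ∀ u ∈ L, (∃ a : X, a ≠ 0 ∧ u a = 1) → ∃ N : ℕ, 0 < N ∧ u ^ N = 1

/-- The element `exp v` of `A(ℂ) = Hom(X, ℂˣ)`, for a homomorphism `v : X → ℂ`. -/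
noncomputable def expPoint {X : Type} [AddCommGroup X] (v : X →ₗ[ℤ] ℂ) : X → ℂˣ :=
  fun a => Units.mk0 (Complex.exp (v a)) (Complex.exp_ne_zero _)

/-- The Lie algebra of a closed subgroup `H` of `A(ℂ)`: the homomorphisms `v : X → ℂ` with
`exp (t v) ∈ H` for all real numbers `t`, a real vector space. Its dimension is the dimension
of `H`. -/
def lieAlgebra {X : Type} [AddCommGroup X] (H : Subgroup (X → ℂˣ)) :
    Submodule ℝ (X →ₗ[ℤ] ℂ) where
  carrier := {v | ∀ t : ℝ, expPoint (t • v) ∈ H}
  add_mem' := by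
    intro v w hv hw t
    have h : expPoint (t • (v + w)) = expPoint (t • v) * expPoint (t • w) := by
      funext a
      apply Units.ext
      show Complex.exp (t • (v a + w a)) = Complex.exp (t • v a) * Complex.exp (t • w a)
      rw [smul_add, Complex.exp_add]
    rw [h]
    exact mul_mem (hv t) (hw t)
  zero_mem' := by
    intro t
    have h : expPoint (t • (0 : X →ₗ[ℤ] ℂ)) = 1 := by
      funext a
      apply Units.ext
      show Complex.exp (t • (0 : ℂ)) = 1
      rw [smul_zero, Complex.exp_zero]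
    rw [h]
    exact one_mem _
  smul_mem' := by
    intro s v hv t
    rw [smul_smul]
    exact hv _

/-- The codimension in `A(ℝ)` of the closure of a subgroup `L` of `A(ℚ)` is `m`. -/
def ClosureOfCodimension (X : Type) [AddCommGroup X] (L : Subgroup (X → ℂˣ)) (m : ℕ) : Prop :=
  finrank ℝ (lieAlgebra L.topologicalClosure) + m = finrank ℤ X

/-- The closure of `L` has finite index in `A(ℝ)`. -/
def ClosureOfFiniteIndex (K : IntermediateField ℚ ℂ) [Normal ℚ K] (X : Type) [AddCommGroup X]
    [DistribMulAction (K ≃ₐ[ℚ] K) X] (L : Subgroup (X → ℂˣ)) : Prop :=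
  L.topologicalClosure ≤ realPoints K X ∧ L.topologicalClosure.relIndex (realPoints K X) ≠ 0

end Pool.Agent.U757.RT
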